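import Pool.Agent.Helper6.Pcf.Defs

/-!
An unbounded set of indices with true cofinality for the bounded ideal yields a representation
by an increasing sequence.
-/

universe u

open Cardinal Ordinal Set

namespace Pool.Agent.Helper6.Pcf

/-- a cofinal sequence of cardinals -/
lemma brepOf_cofinal {kappa mu : Cardinal.{u}} (hcof : mu.ord.cof = kappa) :
    ∃ φ : kappa.ord.ToType → Cardinal.{u}, (∀ i, φ i < mu) ∧ ∀ c, c < mu → ∃ i, c ≤ φ i := by
  obtain ⟨s, hs, hcard⟩ := Order.exists_cof_eq mu.ord.ToType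
  rw [Ordinal.cof_toType, hcof] at hcard
  have h1 : #(kappa.ord.ToType) = #s := by rw [hcard, mk_ord_toType]
  obtain ⟨e⟩ := Cardinal.eq.mp h1
  refine ⟨fun i => ((ToType.mk.symm (e i : mu.ord.ToType) : Set.Iio mu.ord) : Ordinal).card,
    fun i => ?_, fun c hc => ?_⟩
  · have h2 : ((ToType.mk.symm (e i : mu.ord.ToType) : Set.Iio mu.ord) : Ordinal) < mu.ord :=
      (ToType.mk.symm (e i : mu.ord.ToType)).2
    exact lt_ord.mp h2
  · have h2 : c.ord < mu.ord := ord_lt_ord.mpr hc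
    obtain ⟨b, hb, hab⟩ := hs (ToType.mk ⟨c.ord, h2⟩)
    refine ⟨e.symm ⟨b, hb⟩, ?_⟩
    show c ≤ ((ToType.mk.symm (e (e.symm ⟨b, hb⟩) : mu.ord.ToType) : Set.Iio mu.ord) :
      Ordinal).card
    rw [Equiv.apply_symm_apply]
    have h3 : (⟨c.ord, h2⟩ : Set.Iio mu.ord) ≤ ToType.mk.symm b := by
      rw [← ToType.mk.le_iff_le, OrderIso.apply_symm_apply]
      exact hab
    have h4 : c.ord ≤ ((ToType.mk.symm b : Set.Iio mu.ord) : Ordinal) := h3
    rw [ord_le] at h4
    exact h4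

theorem BRep_of_unbdd {I : Type u} {kappa mu lam : Cardinal.{u}} (L : I → Cardinal.{u})
    (B : Set (Set I)) (hk : kappa.IsRegular) (hcof : mu.ord.cof = kappa) (hkm : kappa < mu)
    (hreg : ∀ x, (L x).IsRegular) (hlt : ∀ x, L x < mu)
    (hB : ∀ X : Set I, X ∈ B ↔ ∃ c, c < mu ∧ ∀ x ∈ X, L x ≤ c)
    (x : Set I) (hx : x ∉ B) (hT : TCF L (Tr B x) lam) :
    ∃ s : kappa.ord.ToType → Cardinal.{u}, StrictMono s ∧ (∀ i, ∃ y ∈ x, s i = L y) ∧
    IsLUB (Set.range s) mu ∧ TCF s (Jbd kappa.ord.ToType) lam := by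
  classical
  obtain ⟨φ, hφ1, hφ2⟩ := brepOf_cofinal hcof
  have hunb : ∀ c, c < mu → ∃ y ∈ x, c < L y := by
    intro c hc
    by_contra hcon
    push Not at hcon
    exact hx ((hB x).mpr ⟨c, hc, hcon⟩)
  have key : ∀ (i : kappa.ord.ToType) (g : ∀ j, j < i → x),
      ∃ y : x, (∀ j (hj : j < i), L (g j hj) < L y) ∧ φ i < L y := by
    intro i g
    have h1 : (⨆ j : Set.Iio i, L (g j.1 j.2)) < mu := by
      refine Cardinal.iSup_lt_of_lt_cof_ord ?_ fun j => hlt _
      rw [hcof]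
      have h2 := mk_Iio_lt i (by rw [mk_ord_toType, type_toType])
      rwa [mk_ord_toType] at h2
    obtain ⟨y, hy, hyc⟩ := hunb (max (⨆ j : Set.Iio i, L (g j.1 j.2)) (φ i)) (max_lt h1 (hφ1 i))
    refine ⟨⟨y, hy⟩, fun j hj => ?_, lt_of_le_of_lt (le_max_right _ _) hyc⟩
    have h3 : L (g j hj) ≤ ⨆ j : Set.Iio i, L (g j.1 j.2) :=
      le_ciSup (f := fun j : Set.Iio i => L (g j.1 j.2)) Cardinal.bddAbove_of_small ⟨j, hj⟩
    exact lt_of_le_of_lt (h3.trans (le_max_left _ _)) hyc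
  choose F hF1 hF2 using key
  have wf : WellFounded (fun a b : kappa.ord.ToType => a < b) := wellFounded_lt
  let s : kappa.ord.ToType → x := wf.fix F
  have hs : ∀ i, s i = F i (fun j _ => s j) := fun i => wf.fix_eq F i
  have hmono : StrictMono (fun i => L (s i)) := by
    intro j i hj
    have h1 := hF1 i (fun j _ => s j) j hj
    rw [← hs i] at h1
    exact h1
  have hφs : ∀ i, φ i < L (s i) := by
    intro i
    have h1 := hF2 i (fun j _ => s j)
    rw [← hs i] at h1
    exact h1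
  have hinj : Function.Injective (fun i => (s i : I)) := by
    intro i j hij
    apply hmono.injective
    show L (s i) = L (s j)
    have h1 : (s i : I) = s j := hij
    rw [h1]
  -- pulling back bounded sets
  have hpull : ∀ X : Set I, X ∈ Tr B x → {i | (s i : I) ∈ X} ∈ Jbd kappa.ord.ToType := by
    intro X hX
    obtain ⟨c, hc, hXc⟩ := (hB (X ∩ x)).mp hX
    obtain ⟨i0, hi0⟩ := hφ2 c hc
    refine ⟨i0, fun i hi => ?_⟩
    have h1 : L (s i) ≤ c := hXc _ ⟨hi, (s i).2⟩
    have h2 : L (s i) < L (s i0) := lt_of_le_of_lt (h1.trans hi0) (hφs i0)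
    exact (hmono.lt_iff_lt.mp h2).le
  refine ⟨fun i => L (s i), hmono, fun i => ⟨_, (s i).2, rfl⟩, ⟨?_, ?_⟩, ?_⟩
  · rintro _ ⟨i, rfl⟩
    exact (hlt _).le
  · intro b hb
    by_contra hcon
    rw [not_le] at hcon
    obtain ⟨i, hi⟩ := hφ2 b hcon
    have h1 : L (s i) ≤ b := hb ⟨i, rfl⟩
    exact absurd (lt_of_le_of_lt hi (hφs i)) (not_lt.mpr h1)
  · obtain ⟨hlam, G, hG1, hG2, hG3⟩ := hT
    refine ⟨hlam, fun a i => G a (s i), fun a ha i => hG1 a ha _, fun a b hab hb => ?_,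
      fun g hg => ?_⟩
    · exact hpull _ (hG2 a b hab hb)
    · let g' : I → Ordinal.{u} := fun y => if h : ∃ i, (s i : I) = y then g h.choose else 0
      have hg's : ∀ i, g' (s i) = g i := by
        intro i
        have h1 : ∃ j, (s j : I) = s i := ⟨i, rfl⟩
        have h2 : g' (s i) = g h1.choose := dif_pos h1
        rw [h2, hinj h1.choose_spec]
      have hg' : InProd L g' := by
        intro y
        by_cases h : ∃ i, (s i : I) = y
        · obtain ⟨i, rfl⟩ := h
          rw [hg's]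
          exact hg i
        · have h2 : g' y = 0 := dif_neg h
          rw [h2]
          have h3 : 0 < L y := lt_of_lt_of_le aleph0_pos (hreg y).aleph0_le
          rw [← ord_zero]
          exact ord_lt_ord.mpr h3
      obtain ⟨a, ha, hla⟩ := hG3 g' hg'
      refine ⟨a, ha, ?_⟩
      have h1 := hpull _ hla
      have h2 : {i | (s i : I) ∈ {y | G a y ≤ g' y}} = {i | G a (s i) ≤ g i} := by
        ext i
        show G a (s i) ≤ g' (s i) ↔ G a (s i) ≤ g i
        rw [hg's]
      rw [h2] at h1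
      exact h1

end Pool.Agent.Helper6.Pcf
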