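import Pool.Agent.Helper6.Pcf.Defs

universe u w

open Cardinal Ordinal Set

namespace Pool.Agent.Helper6.Pcf

variable {I : Type u} {kappa : Cardinal.{u}} {L : I → Cardinal.{u}} {K : Set (Set I)}

theorem exists_bound0 (hreg : ∀ x, (L x).IsRegular) {D : Type u} (hD : ∀ x, #D < L x)
    (p : D → I → Ordinal.{u}) (hp : ∀ t, InProd L (p t)) :
    ∃ g, InProd L g ∧ ∀ t x, p t x ≤ g x := by
  refine ⟨fun x => ⨆ t, p t x, fun x => ?_, fun t x => ?_⟩
  · apply Ordinal.iSup_lt_of_lt_cof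
    · rw [(hreg x).cof_ord]; exact hD x
    · intro t; exact hp t x
  · exact Ordinal.le_iSup (fun t => p t x) t

theorem exists_bound (hreg : ∀ x, (L x).IsRegular) {D : Type u} (hD : ∀ x, #D < L x)
    {T : Type w} (e : T → D) (he : Function.Injective e)
    (p : T → I → Ordinal.{u}) (hp : ∀ t, InProd L (p t)) :
    ∃ g, InProd L g ∧ ∀ t x, p t x ≤ g x := by
  classical
  obtain ⟨g, hg, hb⟩ := exists_bound0 hreg hD
    (fun d : D => if h : ∃ t, e t = d then p h.choose else fun _ => 0) (by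
      intro d
      by_cases h : ∃ t, e t = d
      · simp only [h, dite_true]; exact hp _
      · simp only [h, dite_false]
        intro x; exact (hreg x).ord_pos)
  refine ⟨g, hg, fun t x => ?_⟩
  have h : ∃ t', e t' = e t := ⟨t, rfl⟩
  have := hb (e t) x
  simp only [h, dite_true] at this
  have h2 : h.choose = t := he h.choose_spec
  rwa [h2] at this

theorem lt_add_one_ord {c : Cardinal.{u}} (hc : c.IsRegular) {a : Ordinal.{u}} (h : a < c.ord) :
    a + 1 < c.ord :=
  (Cardinal.isSuccLimit_ord hc.aleph0_le).add_one_lt h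

theorem inProd_add_one (hreg : ∀ x, (L x).IsRegular) {f : I → Ordinal.{u}} (hf : InProd L f) :
    InProd L (fun x => f x + 1) :=
  fun x => lt_add_one_ord (hreg x) (hf x)

theorem inProd_zero (hreg : ∀ x, (L x).IsRegular) : InProd L (fun _ => 0) :=
  fun x => (hreg x).ord_pos

theorem IsKIdeal.isKI (h : IsKIdeal kappa K) : IsKI kappa K := ⟨h.down, h.sUnion⟩

theorem IsKI.union (h : IsKI kappa K) (hk : ℵ₀ ≤ kappa) {X Y : Set I} (hX : X ∈ K)
    (hY : Y ∈ K) : X ∪ Y ∈ K := by
  have := h.sUnion {X, Y} (by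
    intro Z hZ
    rcases hZ with rfl | hZ
    · exact hX
    · rw [Set.mem_singleton_iff] at hZ; rw [hZ]; exact hY) (by
    refine lt_of_lt_of_le ?_ hk
    exact (Set.toFinite _).lt_aleph0)
  rwa [Set.sUnion_pair] at this

theorem IsKI.empty (h : IsKI kappa K) (hk : ℵ₀ ≤ kappa) : (∅ : Set I) ∈ K := by
  have := h.sUnion ∅ (by intro Z hZ; exact absurd hZ (Set.notMem_empty _)) (by
    simpa using lt_of_lt_of_le aleph0_pos hk)
  simpa using this

theorem IsKI.iUnion (h : IsKI kappa K) {T : Type u} (X : T → Set I) (hT : #T < kappa)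
    (hX : ∀ t, X t ∈ K) : (⋃ t, X t) ∈ K := by
  rw [← Set.sUnion_range]
  refine h.sUnion _ ?_ (lt_of_le_of_lt Cardinal.mk_range_le hT)
  rintro _ ⟨t, rfl⟩; exact hX t

/-- `f ≤ g` modulo `K`. -/
def LeMod (K : Set (Set I)) (f g : I → Ordinal.{u}) : Prop := {x | g x < f x} ∈ K

theorem LeMod.refl (h : IsKI kappa K) (hk : ℵ₀ ≤ kappa) (f : I → Ordinal.{u}) :
    LeMod K f f := by
  have : {x | f x < f x} = (∅ : Set I) := by ext x; simp
  rw [LeMod, this]; exact h.empty hk

theorem LeMod.of_le (h : IsKI kappa K) (hk : ℵ₀ ≤ kappa) {f g : I → Ordinal.{u}}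
    (hfg : ∀ x, f x ≤ g x) : LeMod K f g := by
  have : {x | g x < f x} = (∅ : Set I) := by
    ext x; simpa using hfg x
  rw [LeMod, this]; exact h.empty hk

theorem LeMod.trans (h : IsKI kappa K) (hk : ℵ₀ ≤ kappa) {f g e : I → Ordinal.{u}}
    (h1 : LeMod K f g) (h2 : LeMod K g e) : LeMod K f e := by
  refine h.down _ _ ?_ (h.union hk h1 h2)
  intro x hx
  by_contra hc
  simp only [Set.mem_union, Set.mem_ofPred_eq, not_or, not_lt] at hc hx
  exact absurd hx (not_lt.2 (hc.1.trans hc.2))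

theorem LeMod.trans_le (h : IsKI kappa K) {f g e : I → Ordinal.{u}}
    (h1 : LeMod K f g) (h2 : ∀ x, g x ≤ e x) : LeMod K f e := by
  refine h.down _ _ ?_ h1
  intro x hx
  exact lt_of_le_of_lt (h2 x) hx

theorem LeMod.le_trans (h : IsKI kappa K) {f g e : I → Ordinal.{u}}
    (h1 : ∀ x, f x ≤ g x) (h2 : LeMod K g e) : LeMod K f e := by
  refine h.down _ _ ?_ h2
  intro x hx
  exact lt_of_lt_of_le hx (h1 x)

theorem LtMod.leMod (h : IsKI kappa K) {f g : I → Ordinal.{u}}
    (h1 : LtMod K f g) : LeMod K f g :=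
  by
  refine h.down _ _ ?_ h1
  intro x hx
  exact le_of_lt (show g x < f x from hx)

theorem LtMod.trans_leMod (h : IsKI kappa K) (hk : ℵ₀ ≤ kappa) {f g e : I → Ordinal.{u}}
    (h1 : LtMod K f g) (h2 : LeMod K g e) : LtMod K f e := by
  refine h.down _ _ ?_ (h.union hk h1 h2)
  intro x hx
  by_contra hc
  simp only [Set.mem_union, Set.mem_ofPred_eq, not_or, not_lt, not_le] at hc hx
  exact absurd hx (not_le.2 (hc.1.trans_le hc.2))

theorem LeMod.trans_ltMod (h : IsKI kappa K) (hk : ℵ₀ ≤ kappa) {f g e : I → Ordinal.{u}}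
    (h1 : LeMod K f g) (h2 : LtMod K g e) : LtMod K f e := by
  refine h.down _ _ ?_ (h.union hk h1 h2)
  intro x hx
  by_contra hc
  simp only [Set.mem_union, Set.mem_ofPred_eq, not_or, not_lt, not_le] at hc hx
  exact absurd hx (not_le.2 (hc.1.trans_lt hc.2))

theorem LeMod.add_one {f g : I → Ordinal.{u}} :
    LtMod K f g ↔ LeMod K (fun x => f x + 1) g := by
  unfold LtMod LeMod
  have : {x | g x ≤ f x} = {x | g x < f x + 1} := by
    ext x; simp [Order.lt_add_one_iff]
  rw [this]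

theorem not_ltMod_of_leMod (h : IsKIdeal kappa K) (hk : ℵ₀ ≤ kappa) {f g : I → Ordinal.{u}}
    (h1 : LtMod K f g) (h2 : LeMod K g f) : False := by
  have := LtMod.trans_leMod h.isKI hk h1 h2
  apply h.univ_notMem
  have h3 : {x | f x ≤ f x} = (Set.univ : Set I) := by ext x; simp
  rw [← h3]; exact this

theorem LtMod.mono {K' : Set (Set I)} (h : K ⊆ K') {f g : I → Ordinal.{u}}
    (h1 : LtMod K f g) : LtMod K' f g := h h1

theorem LeMod.mono {K' : Set (Set I)} (h : K ⊆ K') {f g : I → Ordinal.{u}}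
    (h1 : LeMod K f g) : LeMod K' f g := h h1

theorem Dir.mono {K' : Set (Set I)} {c : Cardinal.{u}} (h : K ⊆ K') (hd : Dir L K c) :
    Dir L K' c := by
  intro T p hT hp
  obtain ⟨g, hg, hb⟩ := hd T p hT hp
  exact ⟨g, hg, fun t => h (hb t)⟩

theorem Dir.anti {c c' : Cardinal.{u}} (h : c' ≤ c) (hd : Dir L K c) : Dir L K c' := by
  intro T p hT hp
  exact hd T p (hT.trans_le h) hp

/-- A true cofinality gives directedness. -/
theorem TCF.dir (h : IsKI kappa K) (hk : ℵ₀ ≤ kappa) {th : Cardinal.{u}} (ht : TCF L K th) :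
    Dir L K th := by
  obtain ⟨hreg, F, hF, hinc, hcof⟩ := ht
  intro T p hT hp
  choose a ha1 ha2 using fun t => hcof (p t) (hp t)
  have hs : (⨆ t, a t) < th.ord := by
    apply Ordinal.iSup_lt_of_lt_cof
    · rw [hreg.cof_ord]; exact hT
    · exact ha1
  have hs1 : (⨆ t, a t) + 1 < th.ord := lt_add_one_ord hreg hs
  refine ⟨F ((⨆ t, a t) + 1), hF _ hs1, fun t => ?_⟩
  have h1 : a t < (⨆ t, a t) + 1 :=
    Order.lt_add_one_iff.2 (Ordinal.le_iSup a t)
  exact (LtMod.leMod h (ha2 t)).trans h hk (LtMod.leMod h (hinc _ _ h1 hs1))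

/-- A true cofinality modulo a proper ideal exceeds the size of any index set which is
everywhere below `L`. -/
theorem TCF.lt_of_small (h : IsKIdeal kappa K) (hk : ℵ₀ ≤ kappa) (hregL : ∀ x, (L x).IsRegular)
    {D : Type u} (hD : ∀ x, #D < L x) {th : Cardinal.{u}} (ht : TCF L K th) : #D < th := by
  by_contra hcon
  rw [not_lt] at hcon
  obtain ⟨hreg, F, hF, hinc, hcof⟩ := ht
  have hem : #(th.ord.ToType) ≤ #D := by rw [Cardinal.mk_ord_toType]; exact hcon
  obtain ⟨e⟩ := (Cardinal.le_def _ _).1 hem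
  obtain ⟨g, hg, hb⟩ := exists_bound hregL hD (T := th.ord.ToType) e e.injective
    (fun i => F (ToType.toOrd i).1) (by
      intro i
      exact hF _ (ToType.toOrd i).2)
  obtain ⟨a, ha, hlt⟩ := hcof g hg
  have hle : ∀ x, F a x ≤ g x := by
    intro x
    have := hb (ToType.mk ⟨a, ha⟩) x
    simpa using this
  exact not_ltMod_of_leMod h hk hlt (LeMod.of_le h.isKI hk hle)

end Pool.Agent.Helper6.Pcf
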