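import Pool.Agent.Helper6.Pcf.Defs

set_option autoImplicit false

/-!
The number of singular cardinals of a given cofinality between two cardinals.
-/

universe u

open Cardinal Ordinal Set

namespace Pool.Agent.Helper6.Pcf

theorem card_chi_le {kappa mu lam nu : Cardinal.{u}} (hk : kappa.IsRegular) (hkn : kappa ≤ nu)
    (Q : Cardinal.{u} → Prop)
    (h : #{th : Cardinal.{u} | th.IsRegular ∧ mu < th ∧ th < lam} ≤ Cardinal.lift.{u + 1} nu) :
    #{chi : Cardinal.{u} | mu < chi ∧ chi < lam ∧ chi.ord.cof = kappa ∧ Q chi} ≤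
      Cardinal.lift.{u + 1} nu := by
  have hnu : ℵ₀ ≤ nu := hk.aleph0_le.trans hkn
  have hsub : Order.succ '' {chi : Cardinal.{u} | mu < chi ∧ chi < lam ∧ chi.ord.cof = kappa ∧ Q chi} ⊆
      insert lam {th : Cardinal.{u} | th.IsRegular ∧ mu < th ∧ th < lam} := by
    rintro _ ⟨chi, ⟨h1, h2, h3, h4⟩, rfl⟩
    have hinf : ℵ₀ ≤ chi := by
      have h5 : chi.ord.cof ≤ chi := by
        have := Ordinal.cof_le_card chi.ord
        rwa [card_ord] at this
      rw [h3] at h5
      exact hk.aleph0_le.trans h5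
    rcases (Order.succ_le_of_lt h2).eq_or_lt with h6 | h6
    · exact Or.inl h6
    · exact Or.inr ⟨isRegular_succ hinf, h1.trans (Order.lt_succ chi), h6⟩
  have hinj : Function.Injective (Order.succ : Cardinal.{u} → Cardinal.{u}) := Order.succ_injective
  calc #{chi : Cardinal.{u} | mu < chi ∧ chi < lam ∧ chi.ord.cof = kappa ∧ Q chi}
      = #(Order.succ '' {chi : Cardinal.{u} | mu < chi ∧ chi < lam ∧ chi.ord.cof = kappa ∧ Q chi}) :=
        (mk_image_eq hinj).symm
    _ ≤ #(insert lam {th : Cardinal.{u} | th.IsRegular ∧ mu < th ∧ th < lam} : Set Cardinal.{u}) :=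
        mk_le_mk_of_subset hsub
    _ ≤ #{th : Cardinal.{u} | th.IsRegular ∧ mu < th ∧ th < lam} + 1 := mk_insert_le
    _ ≤ Cardinal.lift.{u + 1} nu + 1 := by gcongr
    _ = Cardinal.lift.{u + 1} nu := add_one_eq (by rw [aleph0_le_lift]; exact hnu)

end Pool.Agent.Helper6.Pcf
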