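import Pool.Agent.Helper6.Pcf.Seq

universe u

open Cardinal Ordinal Set

namespace Pool.Agent.Helper6.Pcf

/-- The set `A` of cardinals is covered by one set `E` of the minimal ideal of `lam`: the
complement of `E` is in the minimal ideal of every member of `A`. -/
def Covered {I : Type u} (kappa : Cardinal.{u}) (L : I → Cardinal.{u}) (B : Set (Set I))
    (lam : Cardinal.{u}) (A : Set Cardinal.{u}) : Prop :=
  ∃ E : Set I, E ∈ Jst kappa L B lam ∧ ∀ th, th ∈ A → Eᶜ ∈ Jst kappa L B th

/-- Standing assumptions: `kappa` is regular, at most `kappa` many regular cardinals `L x`, all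
above `2 ^ kappa`, a base ideal `B`, and `lam` in the spectrum. -/
structure Core {I : Type u} (kappa : Cardinal.{u}) (L : I → Cardinal.{u}) (B : Set (Set I))
    (lam : Cardinal.{u}) : Prop where
  reg : kappa.IsRegular
  card : #I ≤ kappa
  Lreg : ∀ x, (L x).IsRegular
  Lbig : ∀ x, (2 : Cardinal.{u}) ^ kappa < L x
  base : IsKI kappa B
  lamP : InP kappa L B lam

end Pool.Agent.Helper6.Pcf
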