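import Pool.Agent.Helper6.Pcf.Gen
universe u
open Cardinal Ordinal Set
namespace Pool.Agent.Helper6.Pcf

variable {I : Type u} {kappa lam : Cardinal.{u}} {L : I → Cardinal.{u}} {B : Set (Set I)}

theorem Core.small (hC : Core kappa L B lam) : ∀ x, #(Set I) < L x := by
  intro x
  refine lt_of_le_of_lt ?_ (hC.Lbig x)
  rw [Cardinal.mk_set]
  exact Cardinal.power_le_power_left two_ne_zero hC.card

theorem covTcf_jst_down {th : Cardinal.{u}} {X Y : Set I} (h : X ⊆ Y)
    (hY : Y ∈ Jst kappa L B th) : X ∈ Jst kappa L B th :=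
  fun K hK => hK.1.down X Y h (hY K hK)

theorem covTcf_covered_mono {A A' : Set Cardinal.{u}} (h : A ⊆ A')
    (hA : Covered kappa L B lam A') : Covered kappa L B lam A := by
  obtain ⟨E, hE, hE2⟩ := hA
  exact ⟨E, hE, fun th hth => hE2 th (h hth)⟩

theorem covered_singleton (hC : Core kappa L B lam) {th : Cardinal.{u}}
    (h : InP kappa L B th) (hlt : th < lam) : Covered kappa L B lam {th} := by
  obtain ⟨b, hb1, hb2⟩ := exists_gen hC.reg.aleph0_le hC.Lreg hC.small h
  have hJ := Jst_adm hC.reg.aleph0_le hC.Lreg hC.small hC.lamP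
  refine ⟨b, ?_, ?_⟩
  · exact hb2 _ hJ.1.isKI hJ.2.1
      ((hJ.2.2.dir hJ.1.isKI hC.reg.aleph0_le).anti (Order.succ_le_of_lt hlt))
  · intro th' hth'
    rw [Set.mem_singleton_iff] at hth'
    rw [hth']
    exact hb1

theorem covered_iUnion (hC : Core kappa L B lam) {T : Type u} (A : T → Set Cardinal.{u})
    (hT : #T < kappa) (hA : ∀ t, Covered kappa L B lam (A t)) :
    Covered kappa L B lam (⋃ t, A t) := by
  choose E hE1 hE2 using hA
  refine ⟨⋃ t, E t, ?_, ?_⟩
  · intro K hK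
    exact hK.1.isKI.iUnion E hT (fun t => hE1 t K hK)
  · intro th hth
    rw [Set.mem_iUnion] at hth
    obtain ⟨t, ht⟩ := hth
    exact covTcf_jst_down (Set.compl_subset_compl.2 (Set.subset_iUnion E t)) (hE2 t th ht)

theorem tcf_of_not_covered (hC : Core kappa L B lam) {T : Type u} (f : T → Cardinal.{u})
    (hT : #T ≤ kappa) (hf : ∀ t, InP kappa L B (f t))
    (hnc : ¬ Covered kappa L B lam (Set.range f)) :
    IsKIdeal kappa {X : Set T | Covered kappa L B lam (f '' X)} ∧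
      TCF f {X : Set T | Covered kappa L B lam (f '' X)} lam := by
  have hk := hC.reg.aleph0_le
  have hJ := Jst_adm hk hC.Lreg hC.small hC.lamP
  have hJt := fun t => Jst_adm hk hC.Lreg hC.small (hf t)
  have hideal : IsKIdeal kappa {X : Set T | Covered kappa L B lam (f '' X)} := by
    refine ⟨?_, ?_, ?_⟩
    · intro h
      apply hnc
      rw [← Set.image_univ]
      exact h
    · intro X Y hXY hY
      exact covTcf_covered_mono (Set.image_mono hXY) hY
    · intro S hS hcard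
      have h1 := covered_iUnion hC (fun s : S => f '' (s : Set T)) hcard (fun s => hS s.2)
      refine covTcf_covered_mono ?_ h1
      rintro _ ⟨t, ht, rfl⟩
      obtain ⟨s, hs, hts⟩ := ht
      exact Set.mem_iUnion.2 ⟨⟨s, hs⟩, ⟨t, hts, rfl⟩⟩
  refine ⟨hideal, ?_⟩
  obtain ⟨hlamreg, Phi, hPhi1, hPhi2, hPhi3⟩ := hJ.2.2
  choose hfreg F hF1 hF2 hF3 using fun t => (hJt t).2.2
  -- the least index
  have hkex : ∀ (g : I → Ordinal.{u}), InProd L g → ∀ t, ∃ a, a < (f t).ord ∧
      LeMod (Jst kappa L B (f t)) g (F t a) := by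
    intro g hg t
    obtain ⟨a, ha, hlt⟩ := hF3 t g hg
    exact ⟨a, ha, hlt.leMod (hJt t).1.isKI⟩
  choose k hk1 hk2 using hkex
  -- bounds
  have hTL : ∀ x, #T < L x := fun x => lt_of_le_of_lt hT ((Cardinal.cantor kappa).trans (hC.Lbig x))
  have hGex : ∀ h : T → Ordinal.{u}, InProd f h → ∃ G, InProd L G ∧ ∀ t x, F t (h t) x ≤ G x :=
    fun h hh => exists_bound0 hC.Lreg hTL (fun t => F t (h t)) (fun t => hF1 t _ (hh t))
  choose G hG1 hG2 using hGex
  have key : ∀ (h : T → Ordinal.{u}) (hh : InProd f h) (g : I → Ordinal.{u}) (hg : InProd L g),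
      LeMod (Jst kappa L B lam) (G h hh) g →
      LeMod {X : Set T | Covered kappa L B lam (f '' X)} h (k g hg) := by
    intro h hh g hg hle
    refine ⟨_, hle, ?_⟩
    rintro _ ⟨t, ht, rfl⟩
    have hKI := (hJt t).1.isKI
    have h1 : LtMod (Jst kappa L B (f t)) g (F t (h t)) :=
      (hk2 g hg t).trans_ltMod hKI hk (hF2 t _ _ ht (hh t))
    have h2 : LtMod (Jst kappa L B (f t)) g (G h hh) :=
      h1.trans_leMod hKI hk (LeMod.of_le hKI hk (hG2 h hh t))
    have h3 : ({x | g x < G h hh x} : Set I)ᶜ = {x | G h hh x ≤ g x} := by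
      ext x; simp
    rw [h3]
    exact h2
  have hdirJ := hJ.2.2.dir hJ.1.isKI hk
  refine TCF.of_dir_cof hideal.isKI hk hfreg hlamreg ?_
    (fun i : lam.ord.ToType => k (Phi (ToType.toOrd i).1) (hPhi1 _ (ToType.toOrd i).2))
    (fun i t => hk1 _ _ t) id Function.injective_id ?_
  · intro S p hS hp
    obtain ⟨g, hg, hb⟩ := hdirJ S (fun s => G (p s) (hp s)) hS (fun s => hG1 _ _)
    exact ⟨k g hg, fun t => hk1 g hg t, fun s => key (p s) (hp s) g hg (hb s)⟩
  · intro h hh
    obtain ⟨a, ha, hlt⟩ := hPhi3 (G h hh) (hG1 h hh)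
    refine ⟨ToType.mk ⟨a, ha⟩, key h hh _ _ ?_⟩
    have := LtMod.leMod hJ.1.isKI hlt
    simpa using this

end Pool.Agent.Helper6.Pcf
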