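import Mathlib

/-!
Basic objects of pcf theory: true cofinality of a product of regular cardinals modulo an
ideal, kappa-complete proper ideals, and the spectrum used in the definition of
pp with index Gamma(kappa).
-/

universe u

open Cardinal Ordinal Set

namespace Pool.Agent.Helper6.Pcf

/-- `f` belongs to the product of the cardinals `L x`: `f x` is an ordinal below `L x`. -/
def InProd {I : Type u} (L : I → Cardinal.{u}) (f : I → Ordinal.{u}) : Prop :=
  ∀ x, f x < (L x).ord

/-- `f` is below `g` modulo `J`: the set of `x` with `g x ≤ f x` belongs to `J`. -/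
def LtMod {I : Type u} (J : Set (Set I)) (f g : I → Ordinal.{u}) : Prop :=
  {x | g x ≤ f x} ∈ J

/-- The product of the cardinals `L x` modulo `J` has true cofinality `theta`: `theta` is
regular and there is a sequence of length `theta` in the product which is increasing and
cofinal modulo `J`. -/
def TCF {I : Type u} (L : I → Cardinal.{u}) (J : Set (Set I)) (theta : Cardinal.{u}) : Prop :=
  theta.IsRegular ∧ ∃ F : Ordinal.{u} → I → Ordinal.{u},
    (∀ a, a < theta.ord → InProd L (F a)) ∧
    (∀ a b, a < b → b < theta.ord → LtMod J (F a) (F b)) ∧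
    ∀ g, InProd L g → ∃ a, a < theta.ord ∧ LtMod J g (F a)

/-- `J` is a proper ideal on `I` closed under unions of fewer than `kappa` members. -/
structure IsKIdeal {I : Type u} (kappa : Cardinal.{u}) (J : Set (Set I)) : Prop where
  univ_notMem : Set.univ ∉ J
  down : ∀ X Y : Set I, X ⊆ Y → Y ∈ J → X ∈ J
  sUnion : ∀ S : Set (Set I), S ⊆ J → #S < kappa → ⋃₀ S ∈ J

/-- `L` is an injective family of `kappa` many regular cardinals, unbounded in `mu`, and `J` is
a `kappa`-complete proper ideal containing the bounded sets, such that the product of the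
family modulo `J` has true cofinality `lam`. -/
structure IsRep {I : Type u} (kappa mu lam : Cardinal.{u}) (L : I → Cardinal.{u})
    (J : Set (Set I)) : Prop where
  card : #I = kappa
  inj : Function.Injective L
  reg : ∀ x, (L x).IsRegular
  lt : ∀ x, L x < mu
  unbounded : ∀ c, c < mu → ∃ x, c < L x
  ideal : IsKIdeal kappa J
  bdd : ∀ X : Set I, (∃ c, c < mu ∧ ∀ x ∈ X, L x ≤ c) → X ∈ J
  tcf : TCF L J lam

/-- `lam` is the true cofinality of a product of `kappa` many regular cardinals, unbounded in
`mu`, modulo a `kappa`-complete ideal containing the bounded sets. (This is the form of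
cardinal whose supremum is pp with index Gamma(kappa) of `mu`.) -/
def Rep (kappa mu lam : Cardinal.{u}) : Prop :=
  ∃ (I : Type u) (L : I → Cardinal.{u}) (J : Set (Set I)), IsRep kappa mu lam L J

/-- The ideal of bounded subsets of a linear order. -/
def Jbd (I : Type u) [LinearOrder I] : Set (Set I) := {X | ∃ b, ∀ x ∈ X, x ≤ b}

/-- There is a strictly increasing sequence of length `kappa` of regular cardinals with
supremum `mu` whose product modulo the bounded ideal has true cofinality `lam`. -/
def BRep (kappa mu lam : Cardinal.{u}) : Prop :=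
  ∃ s : kappa.ord.ToType → Cardinal.{u}, StrictMono s ∧ (∀ i, (s i).IsRegular) ∧
    IsLUB (Set.range s) mu ∧ TCF s (Jbd kappa.ord.ToType) lam

/-- Every family of at most `nu` subsets of a set of size `kappa`, such that the intersection
of fewer than `kappa` members always has size at least `kappa`, has a pseudo-intersection: a
set of size `kappa` almost contained (up to fewer than `kappa` points) in every member. -/
def PInt (kappa nu : Cardinal.{u}) : Prop :=
  ∀ (I : Type u), #I = kappa → ∀ A : Set (Set I), #A ≤ nu →
    (∀ S : Set (Set I), S ⊆ A → #S < kappa → kappa ≤ #(⋂₀ S : Set I)) →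
    ∃ x : Set I, #x = kappa ∧ ∀ a ∈ A, #(x \ a : Set I) < kappa

/-- `Dir L K c`: every family of fewer than `c` members of the product has an upper bound
modulo `K`. -/
def Dir {I : Type u} (L : I → Cardinal.{u}) (K : Set (Set I)) (c : Cardinal.{u}) : Prop :=
  ∀ (T : Type u) (p : T → I → Ordinal.{u}), #T < c → (∀ t, InProd L (p t)) →
    ∃ g, InProd L g ∧ ∀ t, {x | g x < p t x} ∈ K

/-- Proper or improper ideal, closed under unions of fewer than `kappa` members. -/
structure IsKI {I : Type u} (kappa : Cardinal.{u}) (K : Set (Set I)) : Prop where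
  down : ∀ X Y : Set I, X ⊆ Y → Y ∈ K → X ∈ K
  sUnion : ∀ S : Set (Set I), S ⊆ K → #S < kappa → ⋃₀ S ∈ K

/-- `Adm kappa L B th K`: `K` is a proper `kappa`-complete ideal containing `B` modulo which
the product has true cofinality `th`. -/
def Adm {I : Type u} (kappa : Cardinal.{u}) (L : I → Cardinal.{u}) (B : Set (Set I))
    (th : Cardinal.{u}) (K : Set (Set I)) : Prop :=
  IsKIdeal kappa K ∧ B ⊆ K ∧ TCF L K th

/-- The intersection of all admissible ideals for `th`. -/
def Jst {I : Type u} (kappa : Cardinal.{u}) (L : I → Cardinal.{u}) (B : Set (Set I))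
    (th : Cardinal.{u}) : Set (Set I) :=
  {X | ∀ K, Adm kappa L B th K → X ∈ K}

/-- `th` is in the spectrum over the base `B`. -/
def InP {I : Type u} (kappa : Cardinal.{u}) (L : I → Cardinal.{u}) (B : Set (Set I))
    (th : Cardinal.{u}) : Prop := ∃ K, Adm kappa L B th K

/-- The trace of `B` on `x`. -/
def Tr {I : Type u} (B : Set (Set I)) (x : Set I) : Set (Set I) := {X | X ∩ x ∈ B}

end Pool.Agent.Helper6.Pcf
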