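import Pool.Agent.Helper6.Pcf.Defs

set_option autoImplicit false

/-!
A product of regular cardinals above kappa is directed for families of size mu, modulo an
ideal containing the sets bounded below mu, when mu is singular of cofinality kappa.
-/

universe u

open Cardinal Ordinal Set

namespace Pool.Agent.Helper6.Pcf

theorem dirSucc_cofinal {kappa mu : Cardinal.{u}} (hcof : mu.ord.cof = kappa) :
    ∃ (S : Type u) (f : S → Ordinal.{u}), #S = kappa ∧ (∀ s, f s < mu.ord) ∧
      ∀ a, a < mu.ord → ∃ s, a ≤ f s := by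
  obtain ⟨S, hS, hS'⟩ := Order.exists_cof_eq mu.ord.ToType
  refine ⟨S, fun s => ((ToType.mk.symm s.1 : Set.Iio mu.ord) : Ordinal), ?_, ?_, ?_⟩
  · rw [hS', Ordinal.cof_toType, hcof]
  · intro s
    exact (ToType.mk.symm s.1).2
  · intro a ha
    obtain ⟨b, hb, hab⟩ := hS (ToType.mk ⟨a, ha⟩)
    refine ⟨⟨b, hb⟩, ?_⟩
    have h1 : (⟨a, ha⟩ : Set.Iio mu.ord) ≤ ToType.mk.symm b := by
      rw [← ToType.mk.symm_apply_apply (⟨a, ha⟩ : Set.Iio mu.ord)]
      exact ToType.mk.symm.monotone hab
    exact h1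

theorem dir_succ_of_bdd {I : Type u} {kappa mu : Cardinal.{u}} (L : I → Cardinal.{u})
    (B : Set (Set I)) (hk : kappa.IsRegular) (hcof : mu.ord.cof = kappa) (hkm : kappa < mu)
    (hreg : ∀ x, (L x).IsRegular) (hL : ∀ x, kappa < L x)
    (hdown : ∀ X Y : Set I, X ⊆ Y → Y ∈ B → X ∈ B)
    (hB : ∀ c, c < mu → {x | L x ≤ c} ∈ B) :
    Dir L B (Order.succ mu) := by
  intro T p hT hp
  have hT' : #T ≤ mu := Order.lt_succ_iff.1 hT
  -- an injection of `T` into the ordinals below `mu.ord`
  have he : ∃ e : T → Ordinal.{u}, Function.Injective e ∧ ∀ t, e t < mu.ord := by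
    rw [← Cardinal.mk_ord_toType mu] at hT'
    obtain ⟨j⟩ := hT'
    refine ⟨fun t => ((ToType.mk.symm (j t) : Set.Iio mu.ord) : Ordinal), ?_, ?_⟩
    · intro a b hab
      exact j.injective (ToType.mk.symm.injective (Subtype.ext hab))
    · intro t
      exact (ToType.mk.symm (j t)).2
  obtain ⟨e, he, he'⟩ := he
  obtain ⟨S, f, hS, hf, hf'⟩ := dirSucc_cofinal hcof
  -- the bound
  let rho : I → Ordinal.{u} := fun x => ⨆ s : {s : S // f s < (L x).ord}, f s.1 + 1
  have hrho : ∀ x, rho x < (L x).ord := by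
    intro x
    refine Ordinal.iSup_add_one_lt_of_lt_cof ?_ fun s => s.2
    rw [(hreg x).cof_ord]
    exact (Cardinal.mk_subtype_le _).trans_lt (by rw [hS]; exact hL x)
  let g : I → Ordinal.{u} := fun x => ⨆ t : {t : T // e t < rho x}, p t.1 x
  have hcard : ∀ x, #{t : T // e t < rho x} < L x := by
    intro x
    have h1 : #{t : T // e t < rho x} ≤ #(rho x).ToType := by
      refine Cardinal.mk_le_of_injective
        (f := fun t => ToType.mk (⟨e t.1, t.2⟩ : Set.Iio (rho x))) ?_
      intro a b hab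
      exact Subtype.ext (he (congrArg Subtype.val (ToType.mk.injective hab)))
    rw [Cardinal.mk_toType] at h1
    exact h1.trans_lt (Cardinal.lt_ord.1 (hrho x))
  refine ⟨g, ?_, ?_⟩
  · intro x
    refine Ordinal.iSup_lt_of_lt_cof ?_ fun t => hp t.1 x
    rw [(hreg x).cof_ord]
    exact hcard x
  · intro t
    obtain ⟨s, hs⟩ := hf' (e t) (he' t)
    refine hdown _ _ ?_ (hB (f s).card ((Cardinal.lt_ord).1 (hf s)))
    intro x hx
    by_contra hcon
    have h1 : f s < (L x).ord := by
      rw [Cardinal.lt_ord]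
      exact not_le.1 hcon
    have h2 : e t < rho x := by
      have h3 : f s + 1 ≤ rho x :=
        Ordinal.le_iSup (fun s : {s : S // f s < (L x).ord} => f s.1 + 1) ⟨s, h1⟩
      exact (hs.trans_lt (by simp)).trans_le h3
    have h4 : p t x ≤ g x :=
      Ordinal.le_iSup (fun t : {t : T // e t < rho x} => p t.1 x) ⟨t, h2⟩
    exact absurd hx (not_lt.2 h4)

end Pool.Agent.Helper6.Pcf
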