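import Pool.Agent.Helper6.Pcf.CovTcf
universe u
open Cardinal Ordinal Set
namespace Pool.Agent.Helper6.Pcf

variable {I : Type u} {kappa lam : Cardinal.{u}} {L : I → Cardinal.{u}} {B : Set (Set I)}

theorem exchi_mono {A A' : Set Cardinal.{u}} (h : A ⊆ A') (hA : Covered kappa L B lam A') :
    Covered kappa L B lam A := by
  obtain ⟨E, hE, h1⟩ := hA
  exact ⟨E, hE, fun th hth => h1 th (h hth)⟩

theorem exchi_empty (hC : Core kappa L B lam) : Covered kappa L B lam ∅ := by
  have h := covered_iUnion hC (T := PEmpty.{u+1}) (fun _ => ∅) (by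
    simpa using lt_of_lt_of_le aleph0_pos hC.reg.aleph0_le) (fun t => t.elim)
  simpa using h

theorem exchi_union (hC : Core kappa L B lam) {A A' : Set Cardinal.{u}}
    (h : Covered kappa L B lam A) (h' : Covered kappa L B lam A') :
    Covered kappa L B lam (A ∪ A') := by
  have h := covered_iUnion hC (T := ULift.{u} Bool) (fun b => if b.down then A else A') (by
    refine lt_of_lt_of_le ?_ hC.reg.aleph0_le
    exact Cardinal.lt_aleph0_of_finite _) (by
    rintro ⟨b⟩
    cases b
    · simpa using h'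
    · simpa using h)
  refine exchi_mono ?_ h
  rintro x (hx | hx)
  · exact mem_iUnion.mpr ⟨⟨true⟩, by simpa using hx⟩
  · exact mem_iUnion.mpr ⟨⟨false⟩, by simpa using hx⟩

theorem exchi_le (hC : Core kappa L B lam) {A : Set Cardinal.{u}}
    (hA : ∀ th, th ∈ A → InP kappa L B th ∧ th < lam) {c : Cardinal.{u}}
    (h : Covered kappa L B lam {th | th ∈ A ∧ th < c}) :
    Covered kappa L B lam {th | th ∈ A ∧ th ≤ c} := by
  by_cases hc : c ∈ A
  · refine exchi_mono ?_ (exchi_union hC h (covered_singleton hC (hA c hc).1 (hA c hc).2))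
    rintro th ⟨h1, h2⟩
    rcases h2.lt_or_eq with h3 | h3
    · exact Or.inl ⟨h1, h3⟩
    · exact Or.inr h3
  · refine exchi_mono ?_ h
    rintro th ⟨h1, h2⟩
    refine ⟨h1, lt_of_le_of_ne h2 ?_⟩
    rintro rfl
    exact hc h1

theorem exchi_kappa_lt (hC : Core kappa L B lam) : kappa < lam := by
  obtain ⟨K, hK⟩ := hC.lamP
  have h := hK.2.2.lt_of_small hK.1 hC.reg.aleph0_le hC.Lreg (D := kappa.ord.ToType) (by
    intro x
    rw [Cardinal.mk_ord_toType]
    exact (Cardinal.cantor kappa).trans (hC.Lbig x))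
  rwa [Cardinal.mk_ord_toType] at h

theorem exists_chi (hC : Core kappa L B lam) {mu : Cardinal.{u}}
    (hloc : ∀ A : Set Cardinal.{u}, (∀ th, th ∈ A → InP kappa L B th ∧ th < lam) →
      (∀ (T : Type u) (f : T → Cardinal.{u}), #T ≤ kappa → (∀ t, f t ∈ A) →
        Covered kappa L B lam (Set.range f)) → Covered kappa L B lam A)
    (A : Set Cardinal.{u}) (hA : ∀ th, th ∈ A → InP kappa L B th ∧ mu < th ∧ th < lam)
    (hnc : ¬ Covered kappa L B lam A) :
    ∃ chi : Cardinal.{u}, mu < chi ∧ chi < lam ∧ chi.ord.cof = kappa ∧ Rep kappa chi lam ∧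
      (∀ c, c < chi → Covered kappa L B lam {th | th ∈ A ∧ th ≤ c}) ∧
      ¬ Covered kappa L B lam {th | th ∈ A ∧ th < chi} := by
  have hk := hC.reg.aleph0_le
  have hA' : ∀ th, th ∈ A → InP kappa L B th ∧ th < lam := fun th h => ⟨(hA th h).1, (hA th h).2.2⟩
  have hlam : lam.IsRegular := by
    obtain ⟨K, hK⟩ := hC.lamP
    exact hK.2.2.1
  have hkl := exchi_kappa_lt hC
  set S : Set Cardinal.{u} := {c | ¬ Covered kappa L B lam {th | th ∈ A ∧ th < c}} with hS
  have hlS : lam ∈ S := by
    intro h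
    apply hnc
    refine exchi_mono ?_ h
    intro th hth
    exact ⟨hth, (hA' th hth).2⟩
  have hSne : S.Nonempty := ⟨lam, hlS⟩
  set chi := sInf S with hchi
  have hchiS : chi ∈ S := csInf_mem hSne
  have hlow : ∀ c, c < chi → Covered kappa L B lam {th | th ∈ A ∧ th < c} := by
    intro c hc
    by_contra h
    exact absurd (csInf_le' (s := S) h) (not_le.mpr hc)
  have hlow' : ∀ c, c < chi → Covered kappa L B lam {th | th ∈ A ∧ th ≤ c} := fun c hc =>
    exchi_le hC hA' (hlow c hc)
  have hchile : chi ≤ lam := csInf_le' hlS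
  have hchilt : chi < lam := by
    refine lt_of_le_of_ne hchile ?_
    intro heq
    apply hnc
    apply hloc A hA'
    intro T f hT hf
    have hsup : (⨆ t, f t) < lam := by
      apply Cardinal.iSup_lt_of_lt_cof_ord
      · rw [hlam.cof_ord]
        exact hT.trans_lt hkl
      · intro t
        exact (hA' _ (hf t)).2
    rw [← heq] at hsup
    refine exchi_mono ?_ (hlow' _ hsup)
    rintro _ ⟨t, rfl⟩
    exact ⟨hf t, le_ciSup Cardinal.bddAbove_of_small t⟩
  have hmu : mu < chi := by
    by_contra hcon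
    rw [not_lt] at hcon
    apply hchiS
    refine exchi_mono ?_ (exchi_empty hC)
    rintro th ⟨h1, h2⟩
    exact absurd ((hA th h1).2.1.trans (h2.trans_le hcon)) (lt_irrefl _)
  refine ⟨chi, hmu, hchilt, ?_⟩
  -- the local witness
  have hex : ∃ (T : Type u) (f : T → Cardinal.{u}), #T ≤ kappa ∧
      (∀ t, f t ∈ {th | th ∈ A ∧ th < chi}) ∧ ¬ Covered kappa L B lam (Set.range f) := by
    by_contra hcon
    push Not at hcon
    apply hchiS
    apply hloc _ (fun th h => hA' th h.1)
    intro T f hT hf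
    exact hcon T f hT hf
  obtain ⟨T0, f0, hT0, hf0, hnc0⟩ := hex
  obtain ⟨T, f, hT, hf, hnc1, hinj⟩ : ∃ (T : Type u) (f : T → Cardinal.{u}), #T ≤ kappa ∧
      (∀ t, f t ∈ {th | th ∈ A ∧ th < chi}) ∧ ¬ Covered kappa L B lam (Set.range f) ∧
      Function.Injective f := by
    refine ⟨Quotient (Setoid.ker f0), Quotient.lift f0 (fun _ _ h => h), ?_, ?_, ?_, ?_⟩
    · exact (Cardinal.mk_quotient_le).trans hT0
    · intro t
      induction t using Quotient.inductionOn with
      | _ t => exact hf0 t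
    · have : Set.range (Quotient.lift f0 (fun _ _ h => h) :
          Quotient (Setoid.ker f0) → Cardinal.{u}) = Set.range f0 := by
        ext c
        constructor
        · rintro ⟨t, rfl⟩
          induction t using Quotient.inductionOn with
          | _ t => exact ⟨t, rfl⟩
        · rintro ⟨t, rfl⟩
          exact ⟨Quotient.mk _ t, rfl⟩
      rw [this]
      exact hnc0
    · intro a b hab
      induction a using Quotient.inductionOn with
      | _ a =>
      induction b using Quotient.inductionOn with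
      | _ b => exact Quotient.sound (s := Setoid.ker f0) hab
  have hbd : ∀ c, c < chi → ∀ X : Set T, (∀ x ∈ X, f x ≤ c) → Covered kappa L B lam (f '' X) := by
    intro c hc X hX
    refine exchi_mono ?_ (hlow' c hc)
    rintro _ ⟨t, ht, rfl⟩
    exact ⟨(hf t).1, hX t ht⟩
  have hub : ∀ c, c < chi → ∃ t, c < f t := by
    intro c hc
    by_contra hcon
    push Not at hcon
    apply hnc1
    rw [← Set.image_univ]
    exact hbd c hc _ (fun x _ => hcon x)
  have hTk : #T = kappa := by
    refine le_antisymm hT ?_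
    by_contra hcon
    rw [not_le] at hcon
    apply hnc1
    have h := covered_iUnion hC (fun t => {f t}) hcon (fun t =>
      covered_singleton hC (hA' _ (hf t).1).1 (hA' _ (hf t).1).2)
    refine exchi_mono ?_ h
    rintro _ ⟨t, rfl⟩
    exact mem_iUnion.mpr ⟨t, rfl⟩
  have hcof : chi.ord.cof = kappa := by
    apply le_antisymm
    · by_contra hcon
      rw [not_le, ← hTk] at hcon
      have hsup := Cardinal.iSup_lt_of_lt_cof_ord hcon (fun t => (hf t).2)
      obtain ⟨t, ht⟩ := hub _ hsup
      exact absurd (le_ciSup Cardinal.bddAbove_of_small t) (not_le.mpr ht)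
    · by_contra hcon
      rw [not_le] at hcon
      obtain ⟨s, hs, hs'⟩ := Order.exists_cof_eq (α := chi.ord.ToType)
      rw [Ordinal.cof_toType] at hs'
      rw [← hs'] at hcon
      apply hnc1
      have hbelow : ∀ j : s, ((ToType.toOrd j.1).1).card < chi := by
        intro j
        exact Cardinal.lt_ord.1 (ToType.toOrd j.1).2
      have h := covered_iUnion hC (T := s)
        (fun j => f '' {t | f t ≤ ((ToType.toOrd j.1).1).card}) hcon
        (fun j => hbd _ (hbelow j) _ (fun x hx => hx))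
      refine exchi_mono ?_ h
      rintro _ ⟨t, rfl⟩
      have h1 : (f t).ord < chi.ord := Cardinal.ord_lt_ord.2 (hf t).2
      obtain ⟨j, hj, hj'⟩ := hs (ToType.mk ⟨(f t).ord, h1⟩)
      refine mem_iUnion.mpr ⟨⟨j, hj⟩, t, ?_, rfl⟩
      show f t ≤ ((ToType.toOrd j).1).card
      have h2 : (f t).ord ≤ (ToType.toOrd j).1 := by
        have h3 := (ToType.mk.symm).monotone hj'
        have h4 : (ToType.mk.symm (ToType.mk ⟨(f t).ord, h1⟩) : Set.Iio chi.ord)
          = ⟨(f t).ord, h1⟩ := by simp
        rw [h4] at h3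
        exact h3
      have h5 := Ordinal.card_le_card h2
      rwa [Cardinal.card_ord] at h5
  obtain ⟨hI1, hI2⟩ := tcf_of_not_covered hC f hT (fun t => (hA' _ (hf t).1).1) hnc1
  refine ⟨hcof, ⟨T, f, {X : Set T | Covered kappa L B lam (f '' X)}, ⟨hTk, hinj, ?_, ?_, hub, hI1,
    ?_, hI2⟩⟩, hlow', hchiS⟩
  · intro t
    obtain ⟨K, hK⟩ := (hA' _ (hf t).1).1
    exact hK.2.2.1
  · intro t
    exact (hf t).2
  · rintro X ⟨c, hc, hX⟩
    exact hbd c hc X hX

end Pool.Agent.Helper6.Pcf
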