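import Pool.Agent.Helper6.Pcf.LocC
import Pool.Agent.Helper6.Pcf.ExChi
import Pool.Agent.Helper6.Pcf.DirSucc
import Pool.Agent.Helper6.Pcf.BRepOf

universe u w

open Cardinal Ordinal Set

namespace Pool.Agent.Helper6.Pcf

section

variable {I : Type u} {kappa lam : Cardinal.{u}} {L : I → Cardinal.{u}} {B : Set (Set I)}

/-- The cardinals below `lam` realised on a set almost disjoint from all members of `Es`. -/
def WS (kappa : Cardinal.{u}) (L : I → Cardinal.{u}) (B : Set (Set I)) (lam : Cardinal.{u})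
    (Es : Set (Set I)) : Set Cardinal.{u} :=
  {th | th < lam ∧ ∃ x : Set I, (∀ E ∈ Es, x ∩ E ∈ B) ∧
    ∃ K, Adm kappa L B th K ∧ xᶜ ∈ K}

theorem ws_inP {Es : Set (Set I)} {th : Cardinal.{u}} (h : th ∈ WS kappa L B lam Es) :
    InP kappa L B th ∧ th < lam := by
  obtain ⟨h1, x, _, K, hK, _⟩ := h
  exact ⟨⟨K, hK⟩, h1⟩

theorem ws_mono {Es Es' : Set (Set I)} (hs : Es ⊆ Es') :
    WS kappa L B lam Es' ⊆ WS kappa L B lam Es := by
  rintro th ⟨h1, x, h2, h3⟩
  exact ⟨h1, x, fun E hE => h2 E (hs hE), h3⟩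

theorem ws_contra (hC : Core kappa L B lam) {Es : Set (Set I)} {th : Cardinal.{u}}
    (h : th ∈ WS kappa L B lam Es) {E : Set I} (hE : E ∈ Es)
    (hc : Eᶜ ∈ Jst kappa L B th) : False := by
  obtain ⟨_, x, h2, K, hK, hx⟩ := h
  have hk := hC.reg.aleph0_le
  have h3 : x ∩ E ∈ K := hK.2.1 (h2 E hE)
  have h4 : Eᶜ ∈ K := hc K hK
  have h5 := hK.1.isKI.union hk (hK.1.isKI.union hk h3 hx) h4
  apply hK.1.univ_notMem
  refine hK.1.down _ _ ?_ h5
  intro y _
  by_cases h6 : y ∈ E
  · by_cases h7 : y ∈ x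
    · exact Or.inl (Or.inl ⟨h7, h6⟩)
    · exact Or.inl (Or.inr h7)
  · exact Or.inr h6

theorem ws_not_covered (hC : Core kappa L B lam) {nu : Cardinal.{u}} (hkn : kappa ≤ nu)
    (hPI : ∀ Es : Set (Set I), Es ⊆ Jst kappa L B lam → #Es ≤ nu →
      ∃ x : Set I, x ∉ B ∧ ∀ E ∈ Es, x ∩ E ∈ B)
    (hbad : ∀ x : Set I, x ∉ B → ∃ th, th < lam ∧ ∃ K, Adm kappa L B th K ∧ xᶜ ∈ K)
    {Es : Set (Set I)} (hEs : Es ⊆ Jst kappa L B lam) (hcard : #Es ≤ nu) :
    ¬ Covered kappa L B lam (WS kappa L B lam Es) := by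
  rintro ⟨E0, hE0, hcov⟩
  have hinf : ℵ₀ ≤ nu := hC.reg.aleph0_le.trans hkn
  obtain ⟨x, hx1, hx2⟩ := hPI (insert E0 Es) (Set.insert_subset hE0 hEs) (by
    refine (Cardinal.mk_insert_le).trans ?_
    exact (add_le_add hcard (Cardinal.one_le_aleph0.trans hinf)).trans
      (Cardinal.add_eq_self hinf).le)
  obtain ⟨th, hth, K, hK, hxK⟩ := hbad x hx1
  have h1 : th ∈ WS kappa L B lam (insert E0 Es) := ⟨hth, x, hx2, K, hK, hxK⟩
  have h2 := ws_mono (Set.subset_insert E0 Es) h1
  exact ws_contra hC h1 (Set.mem_insert E0 Es) (hcov th h2)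

theorem final_core (hC : Core kappa L B lam)
    (hmax : ∀ K : Set (Set I), IsKIdeal kappa K → B ⊆ K → ¬ Dir L K (Order.succ lam))
    {mu nu : Cardinal.{u}} (hmu : ∀ th, InP kappa L B th → mu < th) (hkn : kappa ≤ nu)
    (hPI : ∀ Es : Set (Set I), Es ⊆ Jst kappa L B lam → #Es ≤ nu →
      ∃ x : Set I, x ∉ B ∧ ∀ E ∈ Es, x ∩ E ∈ B)
    (hbad : ∀ x : Set I, x ∉ B → ∃ th, th < lam ∧ ∃ K, Adm kappa L B th K ∧ xᶜ ∈ K) :
    Cardinal.lift.{u + 1} nu <
      #{chi : Cardinal.{u} | mu < chi ∧ chi < lam ∧ chi.ord.cof = kappa ∧ Rep kappa chi lam} := by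
  classical
  by_contra hcon
  rw [not_lt] at hcon
  have hinf : ℵ₀ ≤ nu := hC.reg.aleph0_le.trans hkn
  set S : Set Cardinal.{u} :=
    {chi : Cardinal.{u} | mu < chi ∧ chi < lam ∧ chi.ord.cof = kappa ∧ Rep kappa chi lam} with hS
  -- an injection of `S` into a type of size `nu`
  have hemb : ∃ e : S → nu.ord.ToType, Function.Injective e := by
    have h1 : Cardinal.lift.{u, u + 1} #S ≤ Cardinal.lift.{u + 1, u} #(nu.ord.ToType) := by
      rw [Cardinal.mk_ord_toType, Cardinal.lift_id'.{u, u + 1}]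
      exact hcon
    obtain ⟨e⟩ := Cardinal.lift_mk_le'.1 h1
    exact ⟨e, e.injective⟩
  obtain ⟨e, he⟩ := hemb
  -- reached members
  let R : Cardinal.{u} → Set (Set I) → Prop := fun chi Es =>
    Es ⊆ Jst kappa L B lam ∧ #Es ≤ nu ∧ ∀ th, th ∈ WS kappa L B lam Es → chi ≤ th
  let pick : nu.ord.ToType → Set (Set I) := fun i =>
    if h : ∃ chi : S, e chi = i ∧ ∃ Es, R chi.1 Es then h.choose_spec.2.choose else ∅
  have hpick : ∀ chi : S, (∃ Es, R chi.1 Es) → R chi.1 (pick (e chi)) := by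
    intro chi hchi
    have h : ∃ chi' : S, e chi' = e chi ∧ ∃ Es, R chi'.1 Es := ⟨chi, rfl, hchi⟩
    have h1 : h.choose = chi := he h.choose_spec.1
    have h2 : pick (e chi) = h.choose_spec.2.choose := by
      simp only [pick]
      rw [dif_pos h]
    rw [h2]
    have h3 := h.choose_spec.2.choose_spec
    have h4 : ∀ c' : S, c' = chi → ∀ X, R c'.1 X → R chi.1 X := by
      rintro c' rfl X hX; exact hX
    exact h4 _ h1 _ h3
  have hpick2 : ∀ i, pick i ⊆ Jst kappa L B lam ∧ #(pick i) ≤ nu := by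
    intro i
    by_cases h : ∃ chi : S, e chi = i ∧ ∃ Es, R chi.1 Es
    · have h3 := h.choose_spec.2.choose_spec
      simp only [pick]
      rw [dif_pos h]
      exact ⟨h3.1, h3.2.1⟩
    · simp only [pick]
      rw [dif_neg h]
      exact ⟨Set.empty_subset _, by simp⟩
  set Es : Set (Set I) := ⋃ i, pick i with hEs
  have hEs1 : Es ⊆ Jst kappa L B lam := Set.iUnion_subset fun i => (hpick2 i).1
  have hEs2 : #Es ≤ nu := by
    refine (Cardinal.mk_iUnion_le _).trans ?_
    rw [Cardinal.mk_ord_toType]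
    refine (mul_le_mul' le_rfl (ciSup_le' fun i => (hpick2 i).2)).trans ?_
    exact (Cardinal.mul_eq_self hinf).le
  have hnc := ws_not_covered hC hkn hPI hbad hEs1 hEs2
  obtain ⟨chi, h1, h2, h3, h4, h5, h6⟩ := exists_chi hC (mu := mu)
    (fun A hA hcov => localization hC hmax A hA hcov) (WS kappa L B lam Es)
    (fun th hth => ⟨(ws_inP hth).1, hmu th (ws_inP hth).1, (ws_inP hth).2⟩) hnc
  have hchiS : chi ∈ S := ⟨h1, h2, h3, h4⟩
  -- chi is reached
  obtain ⟨T, c, hT, hc1, hc2⟩ := dirSucc_cofinal h3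
  have hcov : ∀ t : T, ∃ E : Set I, E ∈ Jst kappa L B lam ∧
      ∀ th, th ∈ {th | th ∈ WS kappa L B lam Es ∧ th ≤ (c t).card} →
        Eᶜ ∈ Jst kappa L B th := by
    intro t
    exact h5 _ (Cardinal.lt_ord.1 (hc1 t))
  choose E hE1 hE2 using hcov
  have hreach : R chi (Es ∪ Set.range E) := by
    refine ⟨Set.union_subset hEs1 ?_, ?_, ?_⟩
    · rintro _ ⟨t, rfl⟩; exact hE1 t
    · refine (Cardinal.mk_union_le _ _).trans ?_
      refine (add_le_add hEs2 (Cardinal.mk_range_le.trans (hT.le.trans hkn))).trans ?_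
      exact (Cardinal.add_eq_self hinf).le
    · intro th hth
      by_contra hlt
      rw [not_le] at hlt
      obtain ⟨t, ht⟩ := hc2 th.ord (Cardinal.ord_lt_ord.2 hlt)
      have h7 : th ≤ (c t).card := by
        have := Ordinal.card_le_card ht
        rwa [Cardinal.card_ord] at this
      have h8 := hE2 t th ⟨ws_mono Set.subset_union_left hth, h7⟩
      exact ws_contra hC hth (Or.inr ⟨t, rfl⟩) h8
  have h9 := hpick ⟨chi, hchiS⟩ ⟨_, hreach⟩
  apply h6
  refine exchi_mono ?_ (exchi_empty hC)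
  rintro th ⟨h10, h11⟩
  have h12 : th ∈ WS kappa L B lam (pick (e ⟨chi, hchiS⟩)) :=
    ws_mono (Set.subset_iUnion pick _) h10
  exact absurd (h9.2.2 th h12) (not_le.2 h11)

end

/-- A true cofinality is not exceeded by the directedness. -/
theorem TCF.not_dir {I : Type u} {kappa : Cardinal.{u}} {L : I → Cardinal.{u}}
    {K : Set (Set I)} (hK : IsKIdeal kappa K) (hk : ℵ₀ ≤ kappa) {th : Cardinal.{u}}
    (ht : TCF L K th) : ¬ Dir L K (Order.succ th) := by
  obtain ⟨hreg, F, hF, hinc, hcof⟩ := ht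
  intro hd
  obtain ⟨g, hg1, hg2⟩ := hd th.ord.ToType (fun i => F (ToType.toOrd i).1)
    (by rw [Cardinal.mk_ord_toType]; exact Order.lt_succ th) (fun i => hF _ (ToType.toOrd i).2)
  obtain ⟨a, ha, hlt⟩ := hcof g hg1
  have h1 := hg2 (ToType.mk ⟨a, ha⟩)
  simp only [OrderIso.symm_apply_apply] at h1
  exact not_ltMod_of_leMod hK hk hlt h1

theorem Tr_isKI {I : Type u} {kappa : Cardinal.{u}} {B : Set (Set I)} (hB : IsKI kappa B)
    (x : Set I) : IsKI kappa (Tr B x) := by
  refine ⟨fun X Y hXY hY => ?_, fun S hS hcard => ?_⟩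
  · exact hB.down _ _ (Set.inter_subset_inter_left x hXY) hY
  · have h1 := hB.iUnion (T := S) (fun X => X.1 ∩ x) hcard (fun X => hS X.2)
    refine hB.down _ _ ?_ h1
    rintro y ⟨⟨X, hX, hy⟩, hyx⟩
    exact Set.mem_iUnion.2 ⟨⟨X, hX⟩, hy, hyx⟩

theorem Tr_sub {I : Type u} {kappa : Cardinal.{u}} {B : Set (Set I)} (hB : IsKI kappa B)
    (x : Set I) : B ⊆ Tr B x := fun _ hX => hB.down _ _ Set.inter_subset_left hX

theorem main_dichotomy {I : Type u} {kappa mu lam nu : Cardinal.{u}} (hk : kappa.IsRegular)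
    (hcof : mu.ord.cof = kappa) (hbig : (2 : Cardinal.{u}) ^ kappa < mu)
    (L0 : I → Cardinal.{u}) (J0 : Set (Set I))
    (hrep : IsRep kappa mu lam L0 J0) (hkn : kappa ≤ nu) (hP : PInt kappa nu) :
    (∃ s : kappa.ord.ToType → Cardinal.{u}, StrictMono s ∧ (∀ i, s i ∈ Set.range L0) ∧
      IsLUB (Set.range s) mu ∧ TCF s (Jbd kappa.ord.ToType) lam) ∨
    Cardinal.lift.{u + 1} nu <
      #{chi : Cardinal.{u} | mu < chi ∧ chi < lam ∧ chi.ord.cof = kappa ∧ Rep kappa chi lam} := by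
  classical
  have hinf := hk.aleph0_le
  have hkm : kappa < mu := (Cardinal.cantor kappa).trans hbig
  obtain ⟨hI, hinj, hreg0, hlt0, hub, hJ0, hbd, ht0⟩ := hrep
  obtain ⟨x0, hx0⟩ := hub _ hbig
  set L : I → Cardinal.{u} := fun x => if (2 : Cardinal.{u}) ^ kappa < L0 x then L0 x else L0 x0
    with hL
  have hLreg : ∀ x, (L x).IsRegular := by
    intro x
    by_cases h : (2 : Cardinal.{u}) ^ kappa < L0 x
    · simp only [hL, h, if_true]; exact hreg0 x
    · simp only [hL, h, if_false]; exact hreg0 x0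
  have hLbig : ∀ x, (2 : Cardinal.{u}) ^ kappa < L x := by
    intro x
    by_cases h : (2 : Cardinal.{u}) ^ kappa < L0 x
    · simp only [hL, h, if_true]
    · simp only [hL, h, if_false]; exact hx0
  have hLlt : ∀ x, L x < mu := by
    intro x
    by_cases h : (2 : Cardinal.{u}) ^ kappa < L0 x
    · simp only [hL, h, if_true]; exact hlt0 x
    · simp only [hL, h, if_false]; exact hlt0 x0
  set B0 : Set (Set I) := {X | ∃ c, c < mu ∧ ∀ x ∈ X, L x ≤ c} with hB0
  have hB0J : B0 ⊆ J0 := by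
    rintro X ⟨c, hc, hX⟩
    apply hbd
    refine ⟨max c (2 ^ kappa), max_lt hc hbig, fun x hx => ?_⟩
    by_cases h : (2 : Cardinal.{u}) ^ kappa < L0 x
    · have := hX x hx
      simp only [hL, h, if_true] at this
      exact this.trans (le_max_left _ _)
    · exact (not_lt.1 h).trans (le_max_right _ _)
  have hB0small : ∀ X : Set I, #X < kappa → X ∈ B0 := by
    intro X hX
    have hs : (⨆ x : X, L x.1) < mu := by
      apply Cardinal.iSup_lt_of_lt_cof_ord
      · rw [hcof]; exact hX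
      · intro x; exact hLlt x.1
    refine ⟨_, hs, fun x hx => ?_⟩
    exact le_ciSup (f := fun x : X => L x.1) Cardinal.bddAbove_of_small ⟨x, hx⟩
  have hB0KI : IsKI kappa B0 := by
    refine ⟨?_, ?_⟩
    · rintro X Y hXY ⟨c, hc, hY⟩
      exact ⟨c, hc, fun x hx => hY x (hXY hx)⟩
    · intro S hS hcard
      have hch : ∀ X : S, ∃ c, c < mu ∧ ∀ x ∈ X.1, L x ≤ c := fun X => hS X.2
      choose c hc1 hc2 using hch
      have hs : (⨆ X : S, c X) < mu := by
        apply Cardinal.iSup_lt_of_lt_cof_ord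
        · rw [hcof]; exact hcard
        · exact hc1
      refine ⟨_, hs, ?_⟩
      rintro x ⟨X, hX, hx⟩
      exact (hc2 ⟨X, hX⟩ x hx).trans
        (le_ciSup (f := fun X : S => c X) Cardinal.bddAbove_of_small ⟨X, hX⟩)
  -- true cofinality for the modified sequence
  have hTJ0 : TCF L J0 lam := by
    obtain ⟨hlreg, F, hF1, hF2, hF3⟩ := ht0
    have hsm : {x | ¬ (2 : Cardinal.{u}) ^ kappa < L0 x} ∈ J0 :=
      hbd _ ⟨2 ^ kappa, hbig, fun x hx => not_lt.1 hx⟩
    refine ⟨hlreg, fun a x => if (2 : Cardinal.{u}) ^ kappa < L0 x then F a x else 0, ?_, ?_, ?_⟩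
    · intro a ha x
      by_cases h : (2 : Cardinal.{u}) ^ kappa < L0 x
      · simp only [hL, h, if_true]; exact hF1 a ha x
      · simp only [hL, h, if_false]; exact (hreg0 x0).ord_pos
    · intro a b hab hb
      refine hJ0.down _ _ ?_ (hJ0.isKI.union hinf (hF2 a b hab hb) hsm)
      intro x hx
      by_cases h : (2 : Cardinal.{u}) ^ kappa < L0 x
      · left
        have hx' : (if (2 : Cardinal.{u}) ^ kappa < L0 x then F b x else 0) ≤
          (if (2 : Cardinal.{u}) ^ kappa < L0 x then F a x else 0) := hx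
        simp only [h, if_true] at hx'
        exact hx'
      · right; exact h
    · intro g hg
      obtain ⟨a, ha, hlt⟩ := hF3 (fun x => if (2 : Cardinal.{u}) ^ kappa < L0 x then g x else 0) (by
        intro x
        by_cases h : (2 : Cardinal.{u}) ^ kappa < L0 x
        · have := hg x
          simp only [hL, h, if_true] at this
          simp only [h, if_true]; exact this
        · simp only [h, if_false]; exact (hreg0 x).ord_pos)
      refine ⟨a, ha, hJ0.down _ _ ?_ (hJ0.isKI.union hinf hlt hsm)⟩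
      intro x hx
      by_cases h : (2 : Cardinal.{u}) ^ kappa < L0 x
      · left
        have hx' : (if (2 : Cardinal.{u}) ^ kappa < L0 x then F a x else 0) ≤ g x := hx
        simp only [h, if_true] at hx'
        show F a x ≤ (if (2 : Cardinal.{u}) ^ kappa < L0 x then g x else 0)
        simp only [h, if_true]
        exact hx'
      · right; exact h
  have hsmall : ∀ x, #(Set I) < L x := by
    intro x
    refine lt_of_le_of_lt ?_ (hLbig x)
    rw [Cardinal.mk_set, hI]
  have hInP0 : InP kappa L B0 lam := ⟨J0, hJ0, hB0J, hTJ0⟩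
  have hadm0 := Jst_adm hinf hLreg hsmall hInP0
  obtain ⟨b, hb1, hb2⟩ := exists_gen hinf hLreg hsmall hInP0
  set B : Set (Set I) := Tr B0 b with hB
  have hBKI : IsKI kappa B := Tr_isKI hB0KI b
  have hB0B : B0 ⊆ B := Tr_sub hB0KI b
  have hbc : bᶜ ∈ B := by
    show bᶜ ∩ b ∈ B0
    rw [Set.compl_inter_self]; exact hB0KI.empty hinf
  have hInP : InP kappa L B lam := by
    refine ⟨Jst kappa L B0 lam, hadm0.1, ?_, hadm0.2.2⟩
    intro X hX
    refine hadm0.1.down _ _ ?_ (hadm0.1.isKI.union hinf (hadm0.2.1 hX) hb1)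
    intro y hy
    by_cases h : y ∈ b
    · exact Or.inl ⟨hy, h⟩
    · exact Or.inr h
  have hC : Core kappa L B lam := ⟨hk, hI.le, hLreg, hLbig, hBKI, hInP⟩
  have hmax : ∀ K : Set (Set I), IsKIdeal kappa K → B ⊆ K → ¬ Dir L K (Order.succ lam) := by
    intro K hK hBK hd
    have h1 := hb2 K hK.isKI (hB0B.trans hBK) hd
    have h2 := hK.isKI.union hinf h1 (hBK hbc)
    rw [Set.union_compl_self] at h2
    exact hK.univ_notMem h2
  have hdir0 : Dir L B0 (Order.succ mu) := by
    refine dir_succ_of_bdd L B0 hk hcof hkm hLreg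
      (fun x => (Cardinal.cantor kappa).trans (hLbig x)) hB0KI.down ?_
    intro c hc
    exact ⟨c, hc, fun x hx => hx⟩
  have hmu : ∀ th, InP kappa L B th → mu < th := by
    rintro th ⟨K, hK⟩
    by_contra hcon
    rw [not_lt] at hcon
    apply TCF.not_dir hK.1 hinf hK.2.2
    exact (hdir0.mono (hB0B.trans hK.2.1)).anti (Order.succ_le_succ hcon)
  by_cases hgood : ∃ x : Set I, x ∉ B ∧ ∀ th, th < lam → ∀ K, Adm kappa L B th K → xᶜ ∉ K
  · left
    obtain ⟨x, hx, hx2⟩ := hgood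
    have hKx := Tr_isKI hBKI x
    have hKxp : IsKIdeal kappa (Tr B x) := by
      refine ⟨fun h => hx ?_, hKx.down, hKx.sUnion⟩
      have h1 : Set.univ ∩ x ∈ B := h
      rwa [Set.univ_inter] at h1
    have hnd := hmax _ hKxp (Tr_sub hBKI x)
    obtain ⟨sg, b', hs1, hs2, hs3, hs4, hs5, hs6⟩ :=
      exists_tcf_trace hinf hKx hLreg hsmall hnd
    have hadm : Adm kappa L B sg (Tr (Tr B x) b') :=
      ⟨hs5, (Tr_sub hBKI x).trans (Tr_sub hKx b'), hs6⟩
    have hxc : xᶜ ∈ Tr (Tr B x) b' := by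
      show (xᶜ ∩ b') ∩ x ∈ B
      refine hBKI.down _ _ ?_ (hBKI.empty hinf)
      rintro y ⟨⟨h1, _⟩, h2⟩
      exact absurd h2 h1
    have hge : lam ≤ sg := by
      by_contra hcon
      exact hx2 sg (not_le.1 hcon) _ hadm hxc
    have hle : sg ≤ lam := by
      by_contra hcon
      exact hnd (hs2.anti (Order.succ_le_of_lt (not_le.1 hcon)))
    have heq : sg = lam := le_antisymm hle hge
    subst heq
    set G : Set I := {y | (2 : Cardinal.{u}) ^ kappa < L0 y} with hG
    have hGc : Gᶜ ∈ B0 := by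
      refine ⟨L0 x0, hlt0 x0, fun y hy => ?_⟩
      have hy' : ¬ (2 : Cardinal.{u}) ^ kappa < L0 y := hy
      simp only [hL, hy', if_false, le_refl]
    have hTr : Tr (Tr B x) b' = Tr B0 (b' ∩ x ∩ b ∩ G) := by
      ext X
      show ((X ∩ b') ∩ x) ∩ b ∈ B0 ↔ X ∩ (b' ∩ x ∩ b ∩ G) ∈ B0
      constructor
      · intro h
        refine hB0KI.down _ _ ?_ h
        rintro y ⟨h1, ⟨⟨h2, h3⟩, h4⟩, _⟩
        exact ⟨⟨⟨h1, h2⟩, h3⟩, h4⟩
      · intro h
        refine hB0KI.down _ _ ?_ (hB0KI.union hinf h hGc)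
        rintro y ⟨⟨⟨h1, h2⟩, h3⟩, h4⟩
        by_cases h5 : y ∈ G
        · exact Or.inl ⟨h1, ⟨⟨h2, h3⟩, h4⟩, h5⟩
        · exact Or.inr h5
    have hne : b' ∩ x ∩ b ∩ G ∉ B0 := by
      intro h
      apply hs5.univ_notMem
      rw [hTr]
      show Set.univ ∩ (b' ∩ x ∩ b ∩ G) ∈ B0
      rw [Set.univ_inter]; exact h
    obtain ⟨s, h1, h2, h3, h4⟩ := BRep_of_unbdd L B0 hk hcof hkm hLreg hLlt
      (fun X => Iff.rfl) (b' ∩ x ∩ b ∩ G) hne (by rw [← hTr]; exact hs6)
    refine ⟨s, h1, fun i => ?_, h3, h4⟩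
    obtain ⟨y, hy, hys⟩ := h2 i
    refine ⟨y, ?_⟩
    have hy' : (2 : Cardinal.{u}) ^ kappa < L0 y := hy.2
    rw [hys]
    simp only [hL, hy', if_true]
  · right
    push Not at hgood
    refine final_core hC hmax hmu hkn ?_ ?_
    · intro Es hEs hcard
      obtain ⟨T, c, hT, hc1, hc2⟩ := dirSucc_cofinal hcof
      have hadm := loc_adm hC hC.lamP
      set A : Set (Set I) := (compl '' Es ∪ {b}) ∪
        Set.range (fun t : T => {x : I | (c t).card < L x}) with hA
      have hAcard : #A ≤ nu := by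
        have hinfn : ℵ₀ ≤ nu := hinf.trans hkn
        refine (Cardinal.mk_union_le _ _).trans ?_
        refine (add_le_add ((Cardinal.mk_union_le _ _).trans
          (add_le_add (Cardinal.mk_image_le.trans hcard)
            ((Cardinal.mk_singleton b).le.trans (Cardinal.one_le_aleph0.trans hinfn))))
          (Cardinal.mk_range_le.trans (hT.le.trans hkn))).trans ?_
        rw [Cardinal.add_eq_self hinfn, Cardinal.add_eq_self hinfn]
      have hAc : ∀ a ∈ A, aᶜ ∈ Jst kappa L B lam := by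
        rintro a ((⟨E, hE, rfl⟩ | ha) | ⟨t, rfl⟩)
        · rw [compl_compl]; exact hEs hE
        · rw [Set.mem_singleton_iff] at ha
          subst ha
          exact hadm.2.1 hbc
        · apply hadm.2.1
          apply hB0B
          refine ⟨(c t).card, Cardinal.lt_ord.1 (hc1 t), fun x hx => ?_⟩
          exact not_lt.1 hx
      obtain ⟨x, hx1, hx2⟩ := hP I hI A hAcard (by
        intro S hSA hScard
        by_contra hcon
        rw [not_le] at hcon
        have h1 : ⋂₀ S ∈ Jst kappa L B lam := hadm.2.1 (hB0B (hB0small _ hcon))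
        have h2 := hadm.1.isKI.iUnion (T := S) (fun a => a.1ᶜ) hScard (fun a => hAc a.1 (hSA a.2))
        have h3 := hadm.1.isKI.union hinf h1 h2
        apply hadm.1.univ_notMem
        refine hadm.1.down _ _ ?_ h3
        intro y _
        by_cases h : y ∈ ⋂₀ S
        · exact Or.inl h
        · right
          rw [Set.mem_sInter] at h
          push Not at h
          obtain ⟨a, ha, hy⟩ := h
          exact Set.mem_iUnion.2 ⟨⟨a, ha⟩, hy⟩)
      refine ⟨x, ?_, ?_⟩
      · intro hxB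
        obtain ⟨d, hd, hxd⟩ : x ∩ b ∈ B0 := hxB
        obtain ⟨t, ht⟩ := hc2 d.ord (Cardinal.ord_lt_ord.2 hd)
        have h7 : d ≤ (c t).card := by
          have := Ordinal.card_le_card ht
          rwa [Cardinal.card_ord] at this
        have h1 := hx2 b (Or.inl (Or.inr rfl))
        have h2 := hx2 {y : I | (c t).card < L y} (Or.inr ⟨t, rfl⟩)
        have h3 : x ⊆ (x \ b) ∪ (x \ {y : I | (c t).card < L y}) := by
          intro y hy
          by_cases h : y ∈ b
          · right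
            refine ⟨hy, fun hlt => ?_⟩
            exact absurd (lt_of_lt_of_le (show (c t).card < L y from hlt) (hxd y ⟨hy, h⟩))
              (not_lt.2 h7)
          · left; exact ⟨hy, h⟩
        have h4 := (Cardinal.mk_le_mk_of_subset h3).trans (Cardinal.mk_union_le _ _)
        rw [hx1] at h4
        exact absurd (Cardinal.add_lt_of_lt hinf h1 h2) (not_lt.2 h4)
      · intro E hE
        have h1 := hx2 Eᶜ (Or.inl (Or.inl ⟨E, hE, rfl⟩))
        have h2 : x \ Eᶜ = x ∩ E := by rw [Set.diff_compl]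
        rw [h2] at h1
        exact hB0B (hB0small _ h1)
    · intro x hx
      obtain ⟨th, h1, K, h2, h3⟩ := hgood x hx
      exact ⟨th, h1, K, h2, h3⟩

end Pool.Agent.Helper6.Pcf
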