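import Pool.Agent.Helper6.Pcf.JstAdm
universe u
open Cardinal Ordinal Set
namespace Pool.Agent.Helper6.Pcf

variable {I : Type u} {kappa : Cardinal.{u}} {L : I → Cardinal.{u}}

theorem exists_gen {B : Set (Set I)} {th : Cardinal.{u}} (hk : ℵ₀ ≤ kappa)
    (hreg : ∀ x, (L x).IsRegular) (hsmall : ∀ x, #(Set I) < L x)
    (h : InP kappa L B th) :
    ∃ b : Set I, bᶜ ∈ Jst kappa L B th ∧
      ∀ K : Set (Set I), IsKI kappa K → B ⊆ K → Dir L K (Order.succ th) → b ∈ K := by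
  classical
  obtain ⟨hKI, hBJ, hthreg, F, hF, hinc, hcof⟩ := Jst_adm hk hreg hsmall h
  have hbd : ∀ X : Set I,
      (∃ K : Set (Set I), IsKI kappa K ∧ B ⊆ K ∧ Dir L K (Order.succ th) ∧ X ∉ K) →
      ∃ g : I → Ordinal.{u}, InProd L g ∧ ∃ K : Set (Set I), IsKI kappa K ∧ X ∉ K ∧
        ∀ a, a < th.ord → {x | g x < F a x} ∈ K := by
    rintro X ⟨K, hK, hBK, hdir, hX⟩
    obtain ⟨g, hg1, hg2⟩ := hdir th.ord.ToType (fun i => F (ToType.toOrd i).1) (by
      rw [Cardinal.mk_ord_toType]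
      exact Order.lt_succ th) (fun i => hF _ (ToType.toOrd i).2)
    refine ⟨g, hg1, K, hK, hX, fun a ha => ?_⟩
    have := hg2 (ToType.mk ⟨a, ha⟩)
    simpa using this
  obtain ⟨gs, hgs, hle⟩ := exists_bound0 hreg hsmall
    (fun X : Set I => if hX : (∃ K : Set (Set I), IsKI kappa K ∧ B ⊆ K ∧
      Dir L K (Order.succ th) ∧ X ∉ K) then (hbd X hX).choose else fun _ => 0) (by
      intro X
      by_cases hX : (∃ K : Set (Set I), IsKI kappa K ∧ B ⊆ K ∧
        Dir L K (Order.succ th) ∧ X ∉ K)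
      · simp only [hX, dite_true]
        exact (hbd X hX).choose_spec.1
      · simp only [hX, dite_false]
        exact inProd_zero hreg)
  obtain ⟨a, ha, hlt⟩ := hcof gs hgs
  refine ⟨{x | gs x < F a x}, ?_, ?_⟩
  · have : {x | gs x < F a x}ᶜ = {x | F a x ≤ gs x} := by
      ext x; simp
    rw [this]; exact hlt
  · intro K hK hBK hdir
    by_contra hb
    have hX : (∃ K' : Set (Set I), IsKI kappa K' ∧ B ⊆ K' ∧
      Dir L K' (Order.succ th) ∧ {x | gs x < F a x} ∉ K') := ⟨K, hK, hBK, hdir, hb⟩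
    obtain ⟨K', hK', hnot, hall⟩ := (hbd _ hX).choose_spec.2
    apply hnot
    refine hK'.down _ _ ?_ (hall a ha)
    intro x hx
    have h1 := hle {x | gs x < F a x} x
    simp only [hX, dite_true] at h1
    exact lt_of_le_of_lt h1 hx

end Pool.Agent.Helper6.Pcf
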