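import Pool.Agent.Helper6.Pcf.CovDef
universe u
open Cardinal Ordinal Set
namespace Pool.Agent.Helper6.Pcf

variable {I : Type u} {kappa : Cardinal.{u}} {L : I → Cardinal.{u}}

theorem jstAdm_ideal {B : Set (Set I)} {th : Cardinal.{u}}
    (h : InP kappa L B th) : IsKIdeal kappa (Jst kappa L B th) := by
  obtain ⟨K, hK⟩ := h
  refine ⟨fun hu => hK.1.univ_notMem (hu K hK), ?_, ?_⟩
  · intro X Y hXY hY K' hK'
    exact hK'.1.down X Y hXY (hY K' hK')
  · intro S hS hc K' hK'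
    exact hK'.1.sUnion S (fun X hX => hS hX K' hK') hc

/-- A choice of an admissible ideal avoiding a given set, with a sequence. -/
theorem jstAdm_choice {B : Set (Set I)} {th : Cardinal.{u}} (hreg : ∀ x, (L x).IsRegular)
    (X : Set I) :
    ∃ (K : Set (Set I)) (F : Ordinal.{u} → I → Ordinal.{u}),
      (∀ a, a < th.ord → InProd L (F a)) ∧
      (X ∉ Jst kappa L B th → Adm kappa L B th K ∧ X ∉ K ∧
        (∀ a b, a < b → b < th.ord → LtMod K (F a) (F b)) ∧
        ∀ g, InProd L g → ∃ a, a < th.ord ∧ LtMod K g (F a)) := by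
  by_cases hX : X ∈ Jst kappa L B th
  · exact ⟨∅, fun _ _ => 0, fun _ _ => inProd_zero hreg, fun h => absurd hX h⟩
  · have h1 : ∃ K, Adm kappa L B th K ∧ X ∉ K := by
      by_contra hcon
      push Not at hcon
      exact hX hcon
    obtain ⟨K, hK, hXK⟩ := h1
    obtain ⟨hth, F, hF1, hF2, hF3⟩ := hK.2.2
    exact ⟨K, F, hF1, fun _ => ⟨hK, hXK, hF2, hF3⟩⟩

theorem Jst_adm {B : Set (Set I)} {th : Cardinal.{u}} (hk : ℵ₀ ≤ kappa)
    (hreg : ∀ x, (L x).IsRegular) (hsmall : ∀ x, #(Set I) < L x)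
    (h : InP kappa L B th) : Adm kappa L B th (Jst kappa L B th) := by
  have hid := jstAdm_ideal h
  have hth : th.IsRegular := by
    obtain ⟨K, hK⟩ := h
    exact hK.2.2.1
  have hlt : #(Set I) < th := by
    obtain ⟨K, hK⟩ := h
    exact TCF.lt_of_small hK.1 hk hreg hsmall hK.2.2
  refine ⟨hid, fun X hX K hK => hK.2.1 hX, ?_⟩
  choose K F hF1 hF2 using fun X : Set I => jstAdm_choice (kappa := kappa) (B := B) (th := th)
    hreg X
  have hdir : Dir L (Jst kappa L B th) th := by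
    intro T p hT hp
    have hg : ∀ X : Set I, ∃ g, InProd L g ∧
        (X ∉ Jst kappa L B th → ∀ t, {x | g x < p t x} ∈ K X) := by
      intro X
      by_cases hX : X ∈ Jst kappa L B th
      · exact ⟨fun _ => 0, inProd_zero hreg, fun h => absurd hX h⟩
      · obtain ⟨hadm, -, -, -⟩ := hF2 X hX
        obtain ⟨g, hg1, hg2⟩ := hadm.2.2.dir hadm.1.isKI hk T p hT hp
        exact ⟨g, hg1, fun _ => hg2⟩
    choose g hg1 hg2 using hg
    obtain ⟨G, hG1, hG2⟩ := exists_bound0 hreg hsmall g hg1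
    refine ⟨G, hG1, fun t => ?_⟩
    by_contra hX
    obtain ⟨hadm, hXK, -, -⟩ := hF2 _ hX
    apply hXK
    refine hadm.1.down _ _ ?_ (hg2 _ hX t)
    intro x hx
    exact lt_of_le_of_lt (hG2 _ x) hx
  have hp : ∀ i : th.ord.ToType, ∃ g, InProd L g ∧
      ∀ (X : Set I) (x : I), F X (ToType.toOrd i).1 x ≤ g x := by
    intro i
    exact exists_bound0 hreg hsmall (fun X => F X (ToType.toOrd i).1)
      (fun X => hF1 X _ (ToType.toOrd i).2)
  choose p hp1 hp2 using hp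
  refine TCF.of_dir_cof hid.isKI hk hreg hth hdir p hp1 id Function.injective_id ?_
  intro g hg
  have ha : ∀ X : Set I, ∃ a, a < th.ord ∧ (X ∉ Jst kappa L B th → LtMod (K X) g (F X a)) := by
    intro X
    by_cases hX : X ∈ Jst kappa L B th
    · exact ⟨0, hth.ord_pos, fun h => absurd hX h⟩
    · obtain ⟨-, -, -, hcof⟩ := hF2 X hX
      obtain ⟨a, ha1, ha2⟩ := hcof g hg
      exact ⟨a, ha1, fun _ => ha2⟩
  choose a ha1 ha2 using ha
  have hs : (⨆ X, a X) < th.ord := by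
    apply Ordinal.iSup_lt_of_lt_cof
    · rw [hth.cof_ord]; exact hlt
    · exact ha1
  refine ⟨ToType.mk ⟨⨆ X, a X, hs⟩, ?_⟩
  by_contra hX
  obtain ⟨hadm, hXK, hinc, -⟩ := hF2 _ hX
  apply hXK
  set X : Set I := {x | p (ToType.mk ⟨⨆ X, a X, hs⟩) x < g x} with hXdef
  have h1 : LeMod (K X) g (F X (⨆ X, a X)) := by
    have h2 : a X ≤ ⨆ X, a X := Ordinal.le_iSup a X
    rcases h2.lt_or_eq with h3 | h3
    · exact (LtMod.leMod hadm.1.isKI (ha2 X hX)).trans hadm.1.isKI hk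
        (LtMod.leMod hadm.1.isKI (hinc _ _ h3 hs))
    · rw [← h3]
      exact LtMod.leMod hadm.1.isKI (ha2 X hX)
  refine hadm.1.down _ _ ?_ h1
  intro x hx
  have h3 := hp2 (ToType.mk ⟨⨆ X, a X, hs⟩) X x
  have h4 : F X (⨆ X, a X) x ≤ p (ToType.mk ⟨⨆ X, a X, hs⟩) x := by simpa using h3
  exact lt_of_le_of_lt h4 hx

end Pool.Agent.Helper6.Pcf
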