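import Pool.Agent.Helper6.Pcf.Gen

universe u w

open Cardinal Ordinal Set

namespace Pool.Agent.Helper6.Pcf

variable {I : Type u} {kappa lam : Cardinal.{u}} {L : I → Cardinal.{u}} {B : Set (Set I)}

/-- The part of the spectrum below `lam`. -/
def PT (kappa : Cardinal.{u}) (L : I → Cardinal.{u}) (B : Set (Set I)) (lam : Cardinal.{u}) :
    Type (u + 1) :=
  {th : Cardinal.{u} // InP kappa L B th ∧ th < lam}

theorem loc_small (hC : Core kappa L B lam) : ∀ x, #(Set I) < L x := by
  intro x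
  refine lt_of_le_of_lt ?_ (hC.Lbig x)
  rw [Cardinal.mk_set]
  exact Cardinal.power_le_power_left two_ne_zero hC.card

theorem loc_adm (hC : Core kappa L B lam) {th : Cardinal.{u}} (h : InP kappa L B th) :
    Adm kappa L B th (Jst kappa L B th) :=
  Jst_adm hC.reg.aleph0_le hC.Lreg (loc_small hC) h

theorem loc_sub {th : Cardinal.{u}} {K : Set (Set I)} (h : Adm kappa L B th K) :
    Jst kappa L B th ⊆ K := fun _ hX => hX K h

/-- The index type used for pointwise bounds: a set of size `2 ^ kappa`. -/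
abbrev DT (kappa : Cardinal.{u}) : Type u := Set kappa.ord.ToType

theorem mk_DT : #(DT kappa) = 2 ^ kappa := by
  rw [Cardinal.mk_set, Cardinal.mk_ord_toType]

theorem loc_DT (hC : Core kappa L B lam) : ∀ x, #(DT kappa) < L x := by
  intro x; rw [mk_DT]; exact hC.Lbig x

theorem DT_infinite (hk : ℵ₀ ≤ kappa) : ℵ₀ ≤ #(DT kappa) := by
  rw [mk_DT]; exact hk.trans (Cardinal.cantor kappa).le

theorem loc_big (hC : Core kappa L B lam) {th : Cardinal.{u}} (h : InP kappa L B th) :
    (2 : Cardinal.{u}) ^ kappa < th := by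
  have h1 := loc_adm hC h
  rw [← mk_DT]
  exact TCF.lt_of_small h1.1 hC.reg.aleph0_le hC.Lreg (loc_DT hC) h1.2.2

theorem loc_kappa_lt (hC : Core kappa L B lam) {th : Cardinal.{u}} (h : InP kappa L B th) :
    kappa < th := (Cardinal.cantor kappa).trans (loc_big hC h)

theorem loc_succ_lt (hC : Core kappa L B lam) {th : Cardinal.{u}} (h : InP kappa L B th) :
    Order.succ kappa < th :=
  lt_of_le_of_lt (Order.succ_le_of_lt (Cardinal.cantor kappa)) (loc_big hC h)

theorem loc_regular {th : Cardinal.{u}} (h : InP kappa L B th) :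
    th.IsRegular := by
  obtain ⟨K, hK⟩ := h
  exact hK.2.2.1

theorem PT_emb (hC : Core kappa L B lam) : ∃ e : PT kappa L B lam → DT kappa,
    Function.Injective e := by
  classical
  have hg : ∀ s : PT kappa L B lam, ∃ b : Set I, bᶜ ∈ Jst kappa L B s.1 ∧
      ∀ K : Set (Set I), IsKI kappa K → B ⊆ K → Dir L K (Order.succ s.1) → b ∈ K :=
    fun s => exists_gen hC.reg.aleph0_le hC.Lreg (loc_small hC) s.2.1
  choose b hb1 hb2 using hg
  have hbinj : Function.Injective b := by
    have key : ∀ s t : PT kappa L B lam, s.1 < t.1 → b s ≠ b t := by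
      intro s t hst heq
      have ht := loc_adm hC t.2.1
      have h1 : b s ∈ Jst kappa L B t.1 := by
        apply hb2 s _ ht.1.isKI ht.2.1
        exact (ht.2.2.dir ht.1.isKI hC.reg.aleph0_le).anti (Order.succ_le_of_lt hst)
      have h2 := hb1 t
      rw [heq] at h1
      have h3 := ht.1.isKI.union hC.reg.aleph0_le h1 h2
      rw [Set.union_compl_self] at h3
      exact ht.1.univ_notMem h3
    intro s t hst
    rcases lt_trichotomy s.1 t.1 with h | h | h
    · exact absurd hst (key s t h)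
    · exact Subtype.ext h
    · exact absurd hst.symm (key t s h)
  have hle : #(Set I) ≤ #(DT kappa) := by
    rw [Cardinal.mk_set, mk_DT]
    exact Cardinal.power_le_power_left two_ne_zero hC.card
  obtain ⟨e⟩ := (Cardinal.le_def _ _).1 hle
  exact ⟨fun s => e (b s), e.injective.comp hbinj⟩

theorem list_emb (hk : ℵ₀ ≤ kappa) {T : Type w} (e : T → DT kappa)
    (he : Function.Injective e) : ∃ e' : List T → DT kappa, Function.Injective e' := by
  have hinf : Infinite (DT kappa) := Cardinal.infinite_iff.2 (DT_infinite hk)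
  have h1 : #(List (DT kappa)) = #(DT kappa) := Cardinal.mk_list_eq_mk _
  obtain ⟨f⟩ := Cardinal.eq.1 h1
  exact ⟨fun l => f (l.map e), f.injective.comp (List.map_injective_iff.2 he)⟩

theorem prod_emb (hk : ℵ₀ ≤ kappa) {S : Type u} (hS : #S ≤ kappa) {T : Type w}
    (e : T → DT kappa) (he : Function.Injective e) :
    ∃ e' : S × T → DT kappa, Function.Injective e' := by
  have h1 : #(S × DT kappa) ≤ #(DT kappa) := by
    rw [Cardinal.mk_prod, Cardinal.lift_id, Cardinal.lift_id]
    have h2 : #S ≤ #(DT kappa) := by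
      rw [mk_DT]; exact hS.trans (Cardinal.cantor kappa).le
    exact (mul_le_mul' h2 le_rfl).trans (Cardinal.mul_eq_self (DT_infinite hk)).le
  obtain ⟨f⟩ := (Cardinal.le_def _ _).1 h1
  refine ⟨fun p => f (p.1, e p.2), ?_⟩
  rintro ⟨a, b⟩ ⟨c, d⟩ h
  have h2 := f.injective h
  simp only [Prod.mk.injEq] at h2
  rw [h2.1, he h2.2]

/-- A system of sequences for the part of the spectrum below `lam`. -/
structure GoodSys (F : PT kappa L B lam → Ordinal.{u} → I → Ordinal.{u}) : Prop where
  inp : ∀ s a, a < s.1.ord → InProd L (F s a)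
  inc : ∀ s a b, a < b → b < s.1.ord → LtMod (Jst kappa L B s.1) (F s a) (F s b)
  cof : ∀ s g, InProd L g → ∃ a, a < s.1.ord ∧ LtMod (Jst kappa L B s.1) g (F s a)
  cont : ∀ s d, d < s.1.ord → Order.IsSuccLimit d →
    (∃ g, IsLubMod L (Jst kappa L B s.1) (F s) d g) →
    IsLubMod L (Jst kappa L B s.1) (F s) d (F s d)

theorem exists_goodSys (hC : Core kappa L B lam) :
    ∃ F : PT kappa L B lam → Ordinal.{u} → I → Ordinal.{u}, GoodSys F := by
  have h : ∀ s : PT kappa L B lam, _ := fun s =>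
    TCF.exists_cont (loc_adm hC s.2.1).1.isKI hC.reg.aleph0_le hC.Lreg
      (loc_adm hC s.2.1).2.2
  choose F h1 h2 h3 h4 using h
  exact ⟨F, ⟨h1, h2, h3, h4⟩⟩

/-- The rank of `g` in the sequence of `s`. -/
noncomputable def kf (F : PT kappa L B lam → Ordinal.{u} → I → Ordinal.{u})
    (g : I → Ordinal.{u}) (s : PT kappa L B lam) : Ordinal.{u} :=
  sInf {a | a < s.1.ord ∧ LeMod (Jst kappa L B s.1) g (F s a)}

section

variable {F : PT kappa L B lam → Ordinal.{u} → I → Ordinal.{u}}

theorem kf_mem (hC : Core kappa L B lam) (hF : GoodSys F) {g : I → Ordinal.{u}}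
    (hg : InProd L g) (s : PT kappa L B lam) :
    kf F g s < s.1.ord ∧ LeMod (Jst kappa L B s.1) g (F s (kf F g s)) := by
  have hne : {a | a < s.1.ord ∧ LeMod (Jst kappa L B s.1) g (F s a)}.Nonempty := by
    obtain ⟨a, ha, h⟩ := hF.cof s g hg
    exact ⟨a, ha, LtMod.leMod (loc_adm hC s.2.1).1.isKI h⟩
  exact csInf_mem hne

theorem kf_le {g : I → Ordinal.{u}} {s : PT kappa L B lam} {a : Ordinal.{u}}
    (ha : a < s.1.ord) (h : LeMod (Jst kappa L B s.1) g (F s a)) : kf F g s ≤ a :=
  csInf_le' ⟨ha, h⟩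

theorem GoodSys.mono (hC : Core kappa L B lam) (hF : GoodSys F) (s : PT kappa L B lam)
    {a b : Ordinal.{u}} (hab : a ≤ b) (hb : b < s.1.ord) :
    LeMod (Jst kappa L B s.1) (F s a) (F s b) := by
  have hK := (loc_adm hC s.2.1).1.isKI
  rcases hab.lt_or_eq with h | h
  · exact LtMod.leMod hK (hF.inc s a b h hb)
  · subst h; exact LeMod.refl hK hC.reg.aleph0_le _

/-- `F s a ≤ F s b` modulo the ideal forces `a ≤ b`. -/
theorem GoodSys.le_of_leMod (hC : Core kappa L B lam) (hF : GoodSys F)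
    (s : PT kappa L B lam) {a b : Ordinal.{u}} (ha : a < s.1.ord)
    (h : LeMod (Jst kappa L B s.1) (F s a) (F s b)) : a ≤ b := by
  by_contra hcon
  rw [not_le] at hcon
  exact not_ltMod_of_leMod (loc_adm hC s.2.1).1 hC.reg.aleph0_le (hF.inc s b a hcon ha) h

/-- Iterated ranks along a list. -/
noncomputable def vl (F : PT kappa L B lam → Ordinal.{u} → I → Ordinal.{u}) :
    PT kappa L B lam × Ordinal.{u} → List (PT kappa L B lam) → PT kappa L B lam × Ordinal.{u}
  | p, [] => p
  | p, th :: l => vl F (th, kf F (F p.1 p.2) th) l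

theorem vl_lt (hC : Core kappa L B lam) (hF : GoodSys F) (l : List (PT kappa L B lam)) :
    ∀ p : PT kappa L B lam × Ordinal.{u}, p.2 < p.1.1.ord → (vl F p l).2 < (vl F p l).1.1.ord := by
  induction l with
  | nil => intro p hp; exact hp
  | cons th l ih =>
    intro p hp
    exact ih _ (kf_mem hC hF (hF.inp p.1 p.2 hp) th).1

/-- A function bounding all iterated compositions. -/
theorem exists_hat (hC : Core kappa L B lam) (hF : GoodSys F) :
    ∃ H : PT kappa L B lam → Ordinal.{u} → I → Ordinal.{u},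
      ∀ s a, a < s.1.ord → InProd L (H s a) ∧
        ∀ l x, F (vl F (s, a) l).1 (vl F (s, a) l).2 x ≤ H s a x := by
  classical
  obtain ⟨e, he⟩ := PT_emb hC
  obtain ⟨e', he'⟩ := list_emb hC.reg.aleph0_le e he
  have h : ∀ (s : PT kappa L B lam) (a : Ordinal.{u}), ∃ g : I → Ordinal.{u}, a < s.1.ord →
      InProd L g ∧ ∀ l x, F (vl F (s, a) l).1 (vl F (s, a) l).2 x ≤ g x := by
    intro s a
    by_cases ha : a < s.1.ord
    · obtain ⟨g, hg1, hg2⟩ := exists_bound hC.Lreg (loc_DT hC) e' he'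
        (fun l => F (vl F (s, a) l).1 (vl F (s, a) l).2)
        (fun l => hF.inp _ _ (vl_lt hC hF l (s, a) ha))
      exact ⟨g, fun _ => ⟨hg1, hg2⟩⟩
    · exact ⟨fun _ => 0, fun h => absurd h ha⟩
  choose H hH using h
  exact ⟨H, hH⟩

/-- One function strictly above the bounds of all `H s`, modulo the ideal of `lam`. -/
theorem exists_top (hC : Core kappa L B lam)
    {H : PT kappa L B lam → Ordinal.{u} → I → Ordinal.{u}}
    (hH : ∀ s a, a < s.1.ord → InProd L (H s a)) :
    ∃ h : I → Ordinal.{u}, InProd L h ∧ ∀ s a, a < s.1.ord →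
      {x | h x ≤ H s a x} ∈ Jst kappa L B lam := by
  classical
  have hlam := loc_adm hC hC.lamP
  have hdir := hlam.2.2.dir hlam.1.isKI hC.reg.aleph0_le
  have h1 : ∀ s : PT kappa L B lam, ∃ g, InProd L g ∧ ∀ i : s.1.ord.ToType,
      {x | g x < H s (ToType.toOrd i).1 x} ∈ Jst kappa L B lam := by
    intro s
    exact hdir s.1.ord.ToType (fun i => H s (ToType.toOrd i).1)
      (by rw [Cardinal.mk_ord_toType]; exact s.2.2) (fun i => hH s _ (ToType.toOrd i).2)
  choose g hg1 hg2 using h1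
  obtain ⟨e, he⟩ := PT_emb hC
  obtain ⟨h0, hh1, hh2⟩ := exists_bound hC.Lreg (loc_DT hC) e he g hg1
  refine ⟨fun x => h0 x + 1, inProd_add_one hC.Lreg hh1, fun s a ha => ?_⟩
  have h2 := hg2 s (ToType.mk ⟨a, ha⟩)
  refine hlam.1.down _ _ ?_ h2
  intro x hx
  have hx' : h0 x + 1 ≤ H s a x := hx
  have h3 : g s x < H s a x :=
    lt_of_le_of_lt (hh2 s x) (lt_of_lt_of_le (Order.lt_add_one_iff.2 le_rfl) hx')
  simpa using h3

end

end Pool.Agent.Helper6.Pcf
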