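import Pool.Agent.Helper6.Pcf.LocA

universe u w

open Cardinal Ordinal Set

namespace Pool.Agent.Helper6.Pcf

variable {I : Type u} {kappa lam : Cardinal.{u}} {L : I → Cardinal.{u}} {B : Set (Set I)}
  {F : PT kappa L B lam → Ordinal.{u} → I → Ordinal.{u}}

/-- A chain of length `succ kappa` closed under the sequences and the rank functions. -/
structure ChainP (F : PT kappa L B lam → Ordinal.{u} → I → Ordinal.{u})
    (h : I → Ordinal.{u}) (G : Ordinal.{u} → I → Ordinal.{u})
    (C : Ordinal.{u} → PT kappa L B lam → Ordinal.{u}) : Prop where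
  Ginp : ∀ a, a < (Order.succ kappa).ord → InProd L (G a)
  Clt : ∀ a, a < (Order.succ kappa).ord → ∀ s, C a s < s.1.ord
  top : ∀ a, a < (Order.succ kappa).ord → ∀ x, h x ≤ G a x
  Gmono : ∀ a b, b < a → a < (Order.succ kappa).ord → ∀ x, G b x ≤ G a x
  GF : ∀ a b, b < a → a < (Order.succ kappa).ord → ∀ s x, F s (C b s + 1) x ≤ G a x
  Cmono : ∀ a b, b < a → a < (Order.succ kappa).ord → ∀ s, C b s < C a s
  Ck : ∀ a b, b < a → a < (Order.succ kappa).ord → ∀ s, kf F (G b) s ≤ C a s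

theorem exists_chain (hC : Core kappa L B lam) (hF : GoodSys F) {h : I → Ordinal.{u}}
    (hh : InProd L h) : ∃ G C, ChainP F h G C := by
  classical
  obtain ⟨e, he⟩ := PT_emb hC
  obtain ⟨Z, hZ⟩ := exists_rec (X := (I → Ordinal.{u}) × (PT kappa L B lam → Ordinal.{u}))
    (fun a Z z => a < (Order.succ kappa).ord →
      InProd L z.1 ∧ (∀ s, z.2 s < s.1.ord) ∧ (∀ x, h x ≤ z.1 x) ∧
      (∀ b, b < a → ∀ x, (Z b).1 x ≤ z.1 x) ∧
      (∀ b, b < a → ∀ s x, F s ((Z b).2 s + 1) x ≤ z.1 x) ∧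
      (∀ b, b < a → ∀ s, (Z b).2 s < z.2 s) ∧
      (∀ b, b < a → ∀ s, kf F (Z b).1 s ≤ z.2 s)) (by
      intro a F' G' z hFG hQ ha
      obtain ⟨h1, h2, h3, h4, h5, h6, h7⟩ := hQ ha
      refine ⟨h1, h2, h3, ?_, ?_, ?_, ?_⟩
      · intro b hb; rw [← hFG b hb]; exact h4 b hb
      · intro b hb; rw [← hFG b hb]; exact h5 b hb
      · intro b hb; rw [← hFG b hb]; exact h6 b hb
      · intro b hb; rw [← hFG b hb]; exact h7 b hb) (by
      intro a Z ih
      by_cases ha : a < (Order.succ kappa).ord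
      swap
      · exact ⟨(fun _ => 0, fun _ => 0), fun h => absurd h ha⟩
      have hS : #a.ToType ≤ kappa := by
        rw [Cardinal.mk_toType]
        exact Order.lt_succ_iff.1 (Cardinal.lt_ord.1 ha)
      have hlt : ∀ i : a.ToType, (ToType.toOrd i).1 < a := fun i => (ToType.toOrd i).2
      have hlt' : ∀ i : a.ToType, (ToType.toOrd i).1 < (Order.succ kappa).ord :=
        fun i => (hlt i).trans ha
      have hih := fun i : a.ToType => ih _ (hlt i) (hlt' i)
      have hSL : ∀ x, #a.ToType < L x := fun x =>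
        lt_of_le_of_lt (hS.trans (Cardinal.cantor kappa).le) (hC.Lbig x)
      obtain ⟨g2, hg2, hb2⟩ := exists_bound0 hC.Lreg hSL
        (fun i => (Z (ToType.toOrd i).1).1) (fun i => (hih i).1)
      obtain ⟨e', he'⟩ := prod_emb hC.reg.aleph0_le hS e he
      obtain ⟨g3, hg3, hb3⟩ := exists_bound hC.Lreg (loc_DT hC) e' he'
        (fun p : a.ToType × PT kappa L B lam =>
          F p.2 ((Z (ToType.toOrd p.1).1).2 p.2 + 1)) (fun p => hF.inp _ _
            (lt_add_one_ord (loc_regular p.2.2.1) ((hih p.1).2.1 p.2)))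
      refine ⟨(fun x => max (h x) (max (g2 x) (g3 x)),
        fun s => max (⨆ i : a.ToType, (Z (ToType.toOrd i).1).2 s + 1)
          (⨆ i : a.ToType, kf F (Z (ToType.toOrd i).1).1 s)), fun _ => ⟨?_, ?_, ?_, ?_, ?_, ?_, ?_⟩⟩
      · intro x
        exact max_lt (hh x) (max_lt (hg2 x) (hg3 x))
      · intro s
        have hs : #a.ToType < s.1.ord.cof := by
          rw [(loc_regular s.2.1).cof_ord]
          exact hS.trans_lt (loc_kappa_lt hC s.2.1)
        refine max_lt ?_ ?_
        · exact Ordinal.iSup_lt_of_lt_cof hs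
            (fun i => lt_add_one_ord (loc_regular s.2.1) ((hih i).2.1 s))
        · exact Ordinal.iSup_lt_of_lt_cof hs
            (fun i => (kf_mem hC hF (hih i).1 s).1)
      · intro x; exact le_max_left _ _
      · intro b hb x
        have h1 := hb2 (ToType.mk ⟨b, hb⟩) x
        simp only [OrderIso.symm_apply_apply] at h1
        exact h1.trans ((le_max_left _ _).trans (le_max_right _ _))
      · intro b hb s x
        have h1 := hb3 (ToType.mk ⟨b, hb⟩, s) x
        simp only [OrderIso.symm_apply_apply] at h1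
        exact h1.trans ((le_max_right _ _).trans (le_max_right _ _))
      · intro b hb s
        have h1 := Ordinal.le_iSup (fun i : a.ToType => (Z (ToType.toOrd i).1).2 s + 1)
          (ToType.mk ⟨b, hb⟩)
        simp only [OrderIso.symm_apply_apply] at h1
        exact lt_of_lt_of_le (Order.lt_add_one_iff.2 le_rfl) (h1.trans (le_max_left _ _))
      · intro b hb s
        have h1 := Ordinal.le_iSup (fun i : a.ToType => kf F (Z (ToType.toOrd i).1).1 s)
          (ToType.mk ⟨b, hb⟩)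
        simp only [OrderIso.symm_apply_apply] at h1
        exact h1.trans (le_max_right _ _))
  refine ⟨fun a => (Z a).1, fun a => (Z a).2, ?_, ?_, ?_, ?_, ?_, ?_, ?_⟩
  · intro a ha; exact (hZ a ha).1
  · intro a ha; exact (hZ a ha).2.1
  · intro a ha; exact (hZ a ha).2.2.1
  · intro a b hb ha; exact (hZ a ha).2.2.2.1 b hb
  · intro a b hb ha; exact (hZ a ha).2.2.2.2.1 b hb
  · intro a b hb ha; exact (hZ a ha).2.2.2.2.2.1 b hb
  · intro a b hb ha; exact (hZ a ha).2.2.2.2.2.2 b hb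

/-- The limits of a chain. -/
structure LimP (F : PT kappa L B lam → Ordinal.{u} → I → Ordinal.{u})
    (h : I → Ordinal.{u}) (G : Ordinal.{u} → I → Ordinal.{u})
    (C : Ordinal.{u} → PT kappa L B lam → Ordinal.{u}) (g : I → Ordinal.{u})
    (c : PT kappa L B lam → Ordinal.{u}) : Prop where
  gin : InProd L g
  clt : ∀ s, c s < s.1.ord
  htop : ∀ x, h x ≤ g x
  Gle : ∀ a, a < (Order.succ kappa).ord → ∀ x, G a x ≤ g x
  Cle : ∀ a, a < (Order.succ kappa).ord → ∀ s, C a s < c s
  gsup : ∀ x b, b < g x → ∃ a, a < (Order.succ kappa).ord ∧ b < G a x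
  csup : ∀ s b, b < c s → ∃ a, a < (Order.succ kappa).ord ∧ b < C a s

theorem succ_ord_add (hk : ℵ₀ ≤ kappa) {a : Ordinal.{u}} (ha : a < (Order.succ kappa).ord) :
    a + 1 < (Order.succ kappa).ord :=
  lt_add_one_ord (Cardinal.isRegular_succ hk) ha

theorem exists_lim (hC : Core kappa L B lam) {h : I → Ordinal.{u}}
    {G : Ordinal.{u} → I → Ordinal.{u}} {C : Ordinal.{u} → PT kappa L B lam → Ordinal.{u}}
    (hch : ChainP F h G C) : ∃ g c, LimP F h G C g c := by
  classical
  have hk := hC.reg.aleph0_le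
  have hcard : #(Order.succ kappa).ord.ToType = Order.succ kappa := Cardinal.mk_ord_toType _
  have h0 : 0 < (Order.succ kappa).ord := (Cardinal.isRegular_succ hk).ord_pos
  have hL : ∀ x, #(Order.succ kappa).ord.ToType < (L x).ord.cof := by
    intro x
    rw [hcard, (hC.Lreg x).cof_ord]
    exact lt_of_le_of_lt (Order.succ_le_of_lt (Cardinal.cantor kappa)) (hC.Lbig x)
  have hP : ∀ s : PT kappa L B lam, #(Order.succ kappa).ord.ToType < s.1.ord.cof := by
    intro s
    rw [hcard, (loc_regular s.2.1).cof_ord]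
    exact loc_succ_lt hC s.2.1
  have hGle : ∀ a, a < (Order.succ kappa).ord → ∀ x,
      G a x ≤ ⨆ i : (Order.succ kappa).ord.ToType, G (ToType.toOrd i).1 x := by
    intro a ha x
    have h1 := Ordinal.le_iSup (fun i : (Order.succ kappa).ord.ToType => G (ToType.toOrd i).1 x)
      (ToType.mk ⟨a, ha⟩)
    simpa only [OrderIso.symm_apply_apply] using h1
  have hCle : ∀ a, a < (Order.succ kappa).ord → ∀ s,
      C a s ≤ ⨆ i : (Order.succ kappa).ord.ToType, C (ToType.toOrd i).1 s := by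
    intro a ha s
    have h1 := Ordinal.le_iSup (fun i : (Order.succ kappa).ord.ToType => C (ToType.toOrd i).1 s)
      (ToType.mk ⟨a, ha⟩)
    simpa only [OrderIso.symm_apply_apply] using h1
  refine ⟨fun x => ⨆ i : (Order.succ kappa).ord.ToType, G (ToType.toOrd i).1 x,
    fun s => ⨆ i : (Order.succ kappa).ord.ToType, C (ToType.toOrd i).1 s, ?_, ?_, ?_, hGle, ?_, ?_, ?_⟩
  · intro x
    exact Ordinal.iSup_lt_of_lt_cof (hL x) (fun i => hch.Ginp _ (ToType.toOrd i).2 x)
  · intro s
    exact Ordinal.iSup_lt_of_lt_cof (hP s) (fun i => hch.Clt _ (ToType.toOrd i).2 s)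
  · intro x
    exact (hch.top 0 h0 x).trans (hGle 0 h0 x)
  · intro a ha s
    exact lt_of_lt_of_le (hch.Cmono (a + 1) a (Order.lt_add_one_iff.2 le_rfl)
      (succ_ord_add hk ha) s) (hCle _ (succ_ord_add hk ha) s)
  · intro x b hb
    obtain ⟨i, hi⟩ := Ordinal.lt_iSup_iff.1 hb
    exact ⟨_, (ToType.toOrd i).2, hi⟩
  · intro s b hb
    obtain ⟨i, hi⟩ := Ordinal.lt_iSup_iff.1 hb
    exact ⟨_, (ToType.toOrd i).2, hi⟩

section

variable {h : I → Ordinal.{u}} {G : Ordinal.{u} → I → Ordinal.{u}}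
  {C : Ordinal.{u} → PT kappa L B lam → Ordinal.{u}} {g : I → Ordinal.{u}}
  {c : PT kappa L B lam → Ordinal.{u}}

theorem LimP.isLimit (hC : Core kappa L B lam) (hch : ChainP F h G C)
    (hl : LimP F h G C g c) (s : PT kappa L B lam) : Order.IsSuccLimit (c s) := by
  have hk := hC.reg.aleph0_le
  have h0 : 0 < (Order.succ kappa).ord := (Cardinal.isRegular_succ hk).ord_pos
  rcases Ordinal.zero_or_succ_or_isSuccLimit (c s) with h1 | ⟨b, hb⟩ | h1
  · have := hl.Cle 0 h0 s
    rw [h1] at this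
    exact absurd this (not_lt.2 zero_le)
  · have hb' : b < c s := by rw [← hb]; exact Order.lt_succ b
    obtain ⟨a, ha, hba⟩ := hl.csup s b hb'
    have h2 := hl.Cle a ha s
    rw [← hb] at h2
    exact absurd hba (not_lt.2 (Order.lt_succ_iff.1 h2))
  · exact h1

/-- Stabilisation: an increasing union over the chain of members of an ideal. -/
theorem stab {T : Type u} (hC : Core kappa L B lam) (hT : #T ≤ kappa) {K : Set (Set T)}
    (hdown : ∀ X Y : Set T, X ⊆ Y → Y ∈ K → X ∈ K) (X : Ordinal.{u} → Set T)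
    (hmono : ∀ a b, b < a → a < (Order.succ kappa).ord → X b ⊆ X a)
    (hX : ∀ a, a < (Order.succ kappa).ord → X a ∈ K) (Y : Set T)
    (hY : ∀ t ∈ Y, ∃ a, a < (Order.succ kappa).ord ∧ t ∈ X a) : Y ∈ K := by
  classical
  have hk := hC.reg.aleph0_le
  have h0 : 0 < (Order.succ kappa).ord := (Cardinal.isRegular_succ hk).ord_pos
  have h1 : ∀ t : T, ∃ a, a < (Order.succ kappa).ord ∧ (t ∈ Y → t ∈ X a) := by
    intro t
    by_cases ht : t ∈ Y
    · obtain ⟨a, ha, hta⟩ := hY t ht
      exact ⟨a, ha, fun _ => hta⟩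
    · exact ⟨0, h0, fun h => absurd h ht⟩
  choose a ha1 ha2 using h1
  have hsup : (⨆ t, a t) < (Order.succ kappa).ord := by
    apply Ordinal.iSup_lt_of_lt_cof
    · rw [(Cardinal.isRegular_succ hk).cof_ord]; exact Order.lt_succ_of_le hT
    · exact ha1
  refine hdown _ _ ?_ (hX _ (succ_ord_add hk hsup))
  intro t ht
  refine hmono _ (a t) ?_ (succ_ord_add hk hsup) (ha2 t ht)
  exact Order.lt_add_one_iff.2 (Ordinal.le_iSup a t)

/-- `G a ≤ F s b` modulo the ideal for every `b` above the chain value at `a + 1`. -/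
theorem LimP.G_le_F (hC : Core kappa L B lam) (hF : GoodSys F) (hch : ChainP F h G C)
    {a : Ordinal.{u}} (ha : a < (Order.succ kappa).ord)
    (s : PT kappa L B lam) {b : Ordinal.{u}} (hb1 : C (a + 1) s ≤ b) (hb2 : b < s.1.ord) :
    LeMod (Jst kappa L B s.1) (G a) (F s b) := by
  have hk := hC.reg.aleph0_le
  have hK := (loc_adm hC s.2.1).1.isKI
  have ha1 := succ_ord_add hk ha
  have h1 := kf_mem hC hF (hch.Ginp a ha) s
  have h2 := hch.Ck (a + 1) a (Order.lt_add_one_iff.2 le_rfl) ha1 s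
  exact h1.2.trans hK hk (hF.mono hC s (h2.trans hb1) hb2)

theorem LimP.isLub (hC : Core kappa L B lam) (hF : GoodSys F) (hch : ChainP F h G C)
    (hl : LimP F h G C g c) (s : PT kappa L B lam) :
    IsLubMod L (Jst kappa L B s.1) (F s) (c s) g := by
  have hk := hC.reg.aleph0_le
  have hK := (loc_adm hC s.2.1).1.isKI
  refine ⟨hl.gin, fun b hb => ?_, fun e he1 he2 => ?_⟩
  · obtain ⟨a, ha, hba⟩ := hl.csup s b hb
    have h1 : LeMod (Jst kappa L B s.1) (F s b) (F s (C a s + 1)) :=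
      hF.mono hC s (hba.le.trans (Order.lt_add_one_iff.2 le_rfl).le)
        (lt_add_one_ord (loc_regular s.2.1) (hch.Clt a ha s))
    refine h1.trans_le hK fun x => ?_
    exact (hch.GF (a + 1) a (Order.lt_add_one_iff.2 le_rfl) (succ_ord_add hk ha) s x).trans
      (hl.Gle _ (succ_ord_add hk ha) x)
  · refine stab hC hC.card hK.down (fun a => {x | e x < G a x}) ?_ ?_ _ ?_
    · intro a b hb ha x hx
      exact lt_of_lt_of_le (show e x < G b x from hx) (hch.Gmono a b hb ha x)
    · intro a ha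
      have h1 : LeMod (Jst kappa L B s.1) (G a) (F s (C (a + 1) s)) :=
        LimP.G_le_F hC hF hch ha s le_rfl (hch.Clt _ (succ_ord_add hk ha) s)
      exact h1.trans hK hk (he2 _ (hl.Cle _ (succ_ord_add hk ha) s))
    · intro x hx
      obtain ⟨a, ha, h2⟩ := hl.gsup x (e x) hx
      exact ⟨a, ha, h2⟩

theorem LimP.F_le_g (hC : Core kappa L B lam) (hF : GoodSys F) (hch : ChainP F h G C)
    (hl : LimP F h G C g c) (s : PT kappa L B lam) :
    LeMod (Jst kappa L B s.1) (F s (c s)) g := by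
  have h1 := hl.isLub hC hF hch s
  have h2 := hF.cont s (c s) (hl.clt s) (hl.isLimit hC hch s) ⟨g, h1⟩
  exact h2.2.2 g h1.1 h1.2.1

theorem LimP.g_le_F (hC : Core kappa L B lam) (hF : GoodSys F) (hch : ChainP F h G C)
    (hl : LimP F h G C g c) (s : PT kappa L B lam) :
    LeMod (Jst kappa L B s.1) g (F s (c s)) := by
  have h1 := hl.isLub hC hF hch s
  have h2 := hF.cont s (c s) (hl.clt s) (hl.isLimit hC hch s) ⟨g, h1⟩
  exact h1.2.2 _ h2.1 h2.2.1

end

end Pool.Agent.Helper6.Pcf
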