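import Pool.Agent.Helper6.Pcf.CovDef
universe u
open Cardinal Ordinal Set
namespace Pool.Agent.Helper6.Pcf

variable {I : Type u} {kappa : Cardinal.{u}} {L : I → Cardinal.{u}}

/-- An unbounded family of size `sigma`, enumerated along `sigma.ord`. -/
theorem tcfTrace_enum {K : Set (Set I)} (hreg : ∀ x, (L x).IsRegular) {sigma : Cardinal.{u}}
    (hS : ¬ Dir L K (Order.succ sigma)) :
    ∃ h : Ordinal.{u} → I → Ordinal.{u}, (∀ a, InProd L (h a)) ∧
      ¬ ∃ g, InProd L g ∧ ∀ a, a < sigma.ord → LeMod K (h a) g := by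
  classical
  unfold Dir at hS
  push Not at hS
  obtain ⟨T, p, hT, hp, hun⟩ := hS
  have hT' : #T ≤ sigma := Order.lt_succ_iff.1 hT
  have hem : #T ≤ #(sigma.ord.ToType) := by rw [Cardinal.mk_ord_toType]; exact hT'
  obtain ⟨e⟩ := (Cardinal.le_def _ _).1 hem
  let h : Ordinal.{u} → I → Ordinal.{u} := fun a =>
    if ht : ∃ t, (ToType.toOrd (e t)).1 = a then p ht.choose else fun _ => 0
  have hval : ∀ t, h (ToType.toOrd (e t)).1 = p t := by
    intro t
    have ht : ∃ t', (ToType.toOrd (e t')).1 = (ToType.toOrd (e t)).1 := ⟨t, rfl⟩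
    have h2 : ht.choose = t := by
      apply e.injective
      have h3 : (ToType.toOrd (e ht.choose)).1 = (ToType.toOrd (e t)).1 := ht.choose_spec
      exact (ToType.mk.symm).injective (Subtype.ext h3)
    simp only [h, ht, dite_true, h2]
  refine ⟨h, ?_, ?_⟩
  · intro a
    by_cases ht : ∃ t, (ToType.toOrd (e t)).1 = a
    · simp only [h, ht, dite_true]; exact hp _
    · simp only [h, ht, dite_false]; exact inProd_zero hreg
  · rintro ⟨g, hg, hb⟩
    obtain ⟨t, ht⟩ := hun g hg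
    apply ht
    have h1 : (ToType.toOrd (e t)).1 < sigma.ord := (ToType.toOrd (e t)).2
    have := hb _ h1
    rw [hval] at this
    exact this

/-- Initial segments of an enumerated family are bounded. -/
theorem tcfTrace_seg {K : Set (Set I)} {sigma : Cardinal.{u}} (hdir : Dir L K sigma)
    {h : Ordinal.{u} → I → Ordinal.{u}} (hh : ∀ a, InProd L (h a)) {b : Ordinal.{u}}
    (hb : b < sigma.ord) : ∃ g, InProd L g ∧ ∀ a, a < b → LeMod K (h a) g := by
  obtain ⟨g, hg1, hg2⟩ := hdir b.ToType (fun i => h (ToType.toOrd i).1) (by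
    rw [Cardinal.mk_toType]
    exact Cardinal.lt_ord.1 hb) (fun i => hh _)
  refine ⟨g, hg1, fun a ha => ?_⟩
  have := hg2 (ToType.mk ⟨a, ha⟩)
  unfold LeMod
  simpa using this

/-- The least size of an unbounded family is regular. -/
theorem tcfTrace_regular {K : Set (Set I)} (hk : ℵ₀ ≤ kappa) (hK : IsKI kappa K)
    {sigma : Cardinal.{u}} (hinf : ℵ₀ ≤ sigma) (hdir : Dir L K sigma)
    {h : Ordinal.{u} → I → Ordinal.{u}} (hh : ∀ a, InProd L (h a))
    (hun : ¬ ∃ g, InProd L g ∧ ∀ a, a < sigma.ord → LeMod K (h a) g) : sigma.IsRegular := by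
  refine ⟨hinf, ?_⟩
  by_contra hlt
  rw [not_le] at hlt
  obtain ⟨s, hs1, hs2⟩ := Order.exists_cof_eq sigma.ord.ToType
  rw [Ordinal.cof_toType] at hs2
  have hsl : Order.IsSuccLimit sigma.ord := Cardinal.isSuccLimit_ord hinf
  have hseg : ∀ y : s, ∃ g, InProd L g ∧
      ∀ a, a < (ToType.toOrd y.1).1 + 1 → LeMod K (h a) g := fun y =>
    tcfTrace_seg hdir hh (hsl.add_one_lt (ToType.toOrd y.1).2)
  choose G hG1 hG2 using hseg
  obtain ⟨g, hg1, hg2⟩ := hdir s G (by rw [hs2]; exact hlt) hG1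
  apply hun
  refine ⟨g, hg1, fun a ha => ?_⟩
  obtain ⟨y, hy, hay⟩ := hs1 (ToType.mk ⟨a, ha⟩)
  have h1 : a ≤ (ToType.toOrd y).1 := by
    have h2 : ToType.toOrd (ToType.mk ⟨a, ha⟩) ≤ ToType.toOrd y :=
      (ToType.mk (o := sigma.ord)).symm.le_iff_le.2 hay
    have h3 := Subtype.coe_le_coe.2 h2
    simpa using h3
  exact (hG2 ⟨y, hy⟩ a (Order.lt_add_one_iff.2 h1)).trans hK hk (hg2 ⟨y, hy⟩)

/-- The trace of a `kappa`-complete ideal on a set outside it. -/
theorem tcfTrace_isKIdeal {K : Set (Set I)} (hK : IsKI kappa K) {b : Set I} (hb : b ∉ K) :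
    IsKIdeal kappa (Tr K b) := by
  refine ⟨?_, ?_, ?_⟩
  · intro h
    apply hb
    have h1 : Set.univ ∩ b ∈ K := h
    rwa [Set.univ_inter] at h1
  · intro X Y hXY hY
    exact hK.down (X ∩ b) (Y ∩ b) (Set.inter_subset_inter_left b hXY) hY
  · intro S hS hc
    have h1 : (⋃ X : S, X.1 ∩ b) ∈ K := hK.iUnion (fun X : S => X.1 ∩ b) hc (fun X => hS X.2)
    refine hK.down _ _ ?_ h1
    rintro x ⟨⟨X, hX, hxX⟩, hxb⟩
    exact Set.mem_iUnion.2 ⟨⟨X, hX⟩, hxX, hxb⟩

/-- Some value of a function to a small type is taken unboundedly often. -/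
theorem tcfTrace_stab {sigma : Cardinal.{u}} (hsig : sigma.IsRegular)
    (hD : #(Set I) < sigma) (X : Ordinal.{u} → Set I) :
    ∃ Z : Set I, ∀ a, a < sigma.ord → ∃ a', a ≤ a' ∧ a' < sigma.ord ∧ X a' = Z := by
  by_contra hcon
  push Not at hcon
  choose A hA1 hA2 using hcon
  have hs : (⨆ Z, A Z) < sigma.ord := by
    apply Ordinal.iSup_lt_of_lt_cof
    · rw [hsig.cof_ord]; exact hD
    · exact hA1
  exact hA2 (X (⨆ Z, A Z)) _ (Ordinal.le_iSup A _) hs rfl

theorem exists_tcf_trace {K : Set (Set I)} (hk : ℵ₀ ≤ kappa) (hK : IsKI kappa K)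
    (hreg : ∀ x, (L x).IsRegular) (hsmall : ∀ x, #(Set I) < L x)
    {c : Cardinal.{u}} (hc : ¬ Dir L K c) :
    ∃ (sigma : Cardinal.{u}) (b : Set I), sigma.IsRegular ∧ Dir L K sigma ∧
      ¬ Dir L K (Order.succ sigma) ∧ b ∉ K ∧ IsKIdeal kappa (Tr K b) ∧
      TCF L (Tr K b) sigma := by
  classical
  -- the least size of an unbounded family
  have hne : {s : Cardinal.{u} | ¬ Dir L K (Order.succ s)}.Nonempty := by
    refine ⟨c, fun h => hc (h.anti (Order.le_succ c))⟩
  set sigma : Cardinal.{u} := sInf {s : Cardinal.{u} | ¬ Dir L K (Order.succ s)} with hsdef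
  have hS : ¬ Dir L K (Order.succ sigma) := csInf_mem hne
  have hdir : Dir L K sigma := by
    intro T p hT hp
    have h1 : Dir L K (Order.succ #T) := by
      by_contra h
      exact absurd (csInf_le' h) (not_le.2 hT)
    exact h1 T p (Order.lt_succ _) hp
  obtain ⟨h, hh, hun⟩ := tcfTrace_enum hreg hS
  have hbig : ∀ T : Type u, (∀ x, #T < L x) → #T < sigma := by
    intro T hT
    by_contra hcon
    rw [not_lt] at hcon
    apply hS
    intro T' p hT' hp
    have hT'2 : #T' ≤ #T := (Order.lt_succ_iff.1 hT').trans hcon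
    obtain ⟨g, hg1, hg2⟩ := exists_bound0 hreg (fun x => hT'2.trans_lt (hT x)) p hp
    exact ⟨g, hg1, fun t => LeMod.of_le hK hk (hg2 t)⟩
  have hD : #(Set I) < sigma := hbig _ hsmall
  have hinf : ℵ₀ ≤ sigma := by
    by_contra hcon
    rw [not_le] at hcon
    have h1 : ∀ x, #(sigma.ord.ToType) < L x := by
      intro x
      rw [Cardinal.mk_ord_toType]
      exact hcon.trans_le (hreg x).aleph0_le
    have := hbig _ h1
    rw [Cardinal.mk_ord_toType] at this
    exact lt_irrefl _ this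
  have hsig : sigma.IsRegular := tcfTrace_regular hk hK hinf hdir hh hun
  obtain ⟨F, hF1, hF2, hF3, -⟩ := exists_seq hK hk hreg hdir h (fun a _ => hh a)
  have hFle : ∀ a a', a ≤ a' → a' < sigma.ord → LeMod K (F a) (F a') := by
    intro a a' haa' ha'
    rcases haa'.lt_or_eq with h1 | h1
    · exact LtMod.leMod hK (hF2 a a' h1 ha')
    · rw [h1]; exact LeMod.refl hK hk _
  -- stable values
  let X : (I → Ordinal.{u}) → Ordinal.{u} → Set I := fun g a => {x | g x ≤ F a x}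
  let Stab : (I → Ordinal.{u}) → Set I → Prop := fun g Z =>
    ∀ a, a < sigma.ord → ∃ a', a ≤ a' ∧ a' < sigma.ord ∧ X g a' = Z
  have hstab : ∀ g, ∃ Z, Stab g Z := fun g => tcfTrace_stab hsig hD (X g)
  let gZ : Set I → I → Ordinal.{u} := fun Z =>
    if hZ : ∃ g, InProd L g ∧ Stab g Z then hZ.choose else fun _ => 0
  have hgZ : ∀ Z, InProd L (gZ Z) := by
    intro Z
    by_cases hZ : ∃ g, InProd L g ∧ Stab g Z
    · simp only [gZ, hZ, dite_true]; exact hZ.choose_spec.1
    · simp only [gZ, hZ, dite_false]; exact inProd_zero hreg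
  have hgZ2 : ∀ g Z, InProd L g → Stab g Z → Stab (gZ Z) Z := by
    intro g Z hg hgS
    have hZ : ∃ g, InProd L g ∧ Stab g Z := ⟨g, hg, hgS⟩
    simp only [gZ, hZ, dite_true]; exact hZ.choose_spec.2
  obtain ⟨gs, hgs1, hgs2⟩ := exists_bound0 hreg hsmall gZ hgZ
  obtain ⟨b, hb⟩ := hstab gs
  have h0 : (0 : Ordinal.{u}) < sigma.ord := hsig.ord_pos
  -- every `g` is eventually dominated on `b`
  have hi : ∀ g, InProd L g → ∃ a, a < sigma.ord ∧ LeMod (Tr K b) g (F a) := by
    intro g hg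
    obtain ⟨Z, hZ⟩ := hstab g
    have hZ2 := hgZ2 g Z hg hZ
    obtain ⟨a, -, ha2, ha3⟩ := hb 0 h0
    obtain ⟨a1, ha11, ha12, ha13⟩ := hZ2 a ha2
    obtain ⟨a2, -, ha22, ha23⟩ := hZ 0 h0
    refine ⟨a2, ha22, ?_⟩
    show {x | F a2 x < g x} ∩ b ∈ K
    refine hK.down _ _ ?_ (hFle a a1 ha11 ha12)
    rintro x ⟨hx1, hx2⟩
    show F a1 x < F a x
    have h1 : x ∉ Z := by
      rw [← ha23]
      exact not_le.2 (show F a2 x < g x from hx1)
    have h2 : F a1 x < gZ Z x := by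
      rw [← ha13] at h1
      exact not_le.1 h1
    have h3 : gs x ≤ F a x := by
      rw [← ha3] at hx2
      exact hx2
    exact h2.trans_le ((hgs2 Z x).trans h3)
  have hbK : b ∉ K := by
    intro hbK
    apply hun
    refine ⟨gs, hgs1, fun a ha => ?_⟩
    have ha1 : a + 1 < sigma.ord := lt_add_one_ord hsig ha
    obtain ⟨a1, ha11, ha12, ha13⟩ := hb (a + 1) ha1
    have h1 : LeMod K (F (a + 1)) gs := by
      refine hK.down _ _ ?_ (hK.union hk hbK (hFle (a + 1) a1 ha11 ha12))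
      intro x hx
      by_cases hxb : x ∈ b
      · exact Or.inl hxb
      · right
        show F a1 x < F (a + 1) x
        rw [← ha13] at hxb
        exact (not_le.1 hxb).trans hx
    exact LeMod.le_trans hK (hF3 a ha1) h1
  refine ⟨sigma, b, hsig, hdir, hS, hbK, tcfTrace_isKIdeal hK hbK, hsig, F, hF1, ?_, ?_⟩
  · intro a a' haa' ha'
    exact hK.down _ _ Set.inter_subset_left (hF2 a a' haa' ha')
  · intro g hg
    obtain ⟨a, ha1, ha2⟩ := hi _ (inProd_add_one hreg hg)
    exact ⟨a, ha1, LeMod.add_one.2 ha2⟩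

end Pool.Agent.Helper6.Pcf
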