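import Pool.Agent.Helper6.Pcf.LocB
import Pool.Agent.Helper6.Pcf.TcfTrace

universe u w

open Cardinal Ordinal Set

namespace Pool.Agent.Helper6.Pcf

variable {I : Type u} {kappa lam : Cardinal.{u}} {L : I → Cardinal.{u}} {B : Set (Set I)}
  {F : PT kappa L B lam → Ordinal.{u} → I → Ordinal.{u}}

/-- The transitive exact generator. -/
def Bhat (F : PT kappa L B lam → Ordinal.{u} → I → Ordinal.{u})
    (g : I → Ordinal.{u}) (c : PT kappa L B lam → Ordinal.{u}) (s : PT kappa L B lam) : Set I :=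
  {x | ∃ l : List (PT kappa L B lam), (vl F (s, c s) l).2 = c (vl F (s, c s) l).1 ∧
    g x ≤ F (vl F (s, c s) l).1 (vl F (s, c s) l).2 x}

section

variable {h : I → Ordinal.{u}} {G : Ordinal.{u} → I → Ordinal.{u}}
  {C : Ordinal.{u} → PT kappa L B lam → Ordinal.{u}} {g : I → Ordinal.{u}}
  {c : PT kappa L B lam → Ordinal.{u}} {H : PT kappa L B lam → Ordinal.{u} → I → Ordinal.{u}}

theorem Bhat_mem (hC : Core kappa L B lam)
    (hH : ∀ s a, a < s.1.ord → InProd L (H s a) ∧
        ∀ l x, F (vl F (s, a) l).1 (vl F (s, a) l).2 x ≤ H s a x)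
    (hh : ∀ s a, a < s.1.ord → {x | h x ≤ H s a x} ∈ Jst kappa L B lam)
    (hl : LimP F h G C g c) (s : PT kappa L B lam) :
    Bhat F g c s ∈ Jst kappa L B lam := by
  refine (loc_adm hC hC.lamP).1.down _ _ ?_ (hh s (c s) (hl.clt s))
  rintro x ⟨l, _, h2⟩
  exact (hl.htop x).trans (h2.trans ((hH s (c s) (hl.clt s)).2 l x))

theorem Bhat_compl (hC : Core kappa L B lam) (hF : GoodSys F) (hch : ChainP F h G C)
    (hl : LimP F h G C g c) (s : PT kappa L B lam) :
    (Bhat F g c s)ᶜ ∈ Jst kappa L B s.1 := by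
  refine (loc_adm hC s.2.1).1.down _ _ ?_ (hl.g_le_F hC hF hch s)
  intro x hx
  by_contra hcon
  apply hx
  exact ⟨[], rfl, not_lt.1 hcon⟩

theorem Bhat_sub {s t : PT kappa L B lam} (hst : kf F (F s (c s)) t = c t) :
    Bhat F g c t ⊆ Bhat F g c s := by
  rintro x ⟨l, h1, h2⟩
  have h3 : vl F (s, c s) (t :: l) = vl F (t, c t) l := by
    show vl F (t, kf F (F s (c s)) t) l = _
    rw [hst]
  exact ⟨t :: l, by rw [h3]; exact h1, by rw [h3]; exact h2⟩

/-- The ideal on `T` of the `X` such that the union of the generators over `X` is small. -/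
def KT (F : PT kappa L B lam → Ordinal.{u} → I → Ordinal.{u})
    (g : I → Ordinal.{u}) (c : PT kappa L B lam → Ordinal.{u}) {T : Type u}
    (f : T → PT kappa L B lam) : Set (Set T) :=
  {X | (⋃ t ∈ X, Bhat F g c (f t)) ∈ Jst kappa L B lam}

theorem KT_isKI (hC : Core kappa L B lam) {T : Type u} (f : T → PT kappa L B lam) :
    IsKI kappa (KT F g c f) := by
  have hJ := (loc_adm hC hC.lamP).1
  refine ⟨fun X Y hXY hY => ?_, fun S hS hcard => ?_⟩
  · refine hJ.down _ _ ?_ hY
    exact Set.biUnion_subset_biUnion_left hXY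
  · have h1 := hJ.isKI.iUnion (T := S) (fun X => ⋃ t ∈ X.1, Bhat F g c (f t)) hcard
      (fun X => hS X.2)
    refine hJ.down _ _ ?_ h1
    intro x hx
    simp only [Set.mem_iUnion, Set.mem_sUnion] at hx ⊢
    obtain ⟨t, ⟨X, hX, htX⟩, hx⟩ := hx
    exact ⟨⟨X, hX⟩, t, htX, hx⟩

/-- The pushed ideal on `I`. -/
def DS {T : Type u} (f : T → PT kappa L B lam) (K : Set (Set T)) : Set (Set I) :=
  {X | {t | X ∉ Jst kappa L B (f t).1} ∈ K}

theorem DS_ideal (hC : Core kappa L B lam) {T : Type u} (f : T → PT kappa L B lam)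
    {K : Set (Set T)} (hK : IsKIdeal kappa K) : IsKIdeal kappa (DS f K) := by
  have hJ := fun t => (loc_adm hC (f t).2.1).1
  refine ⟨fun h => ?_, fun X Y hXY hY => ?_, fun S hS hcard => ?_⟩
  · apply hK.univ_notMem
    have h1 : {t | (Set.univ : Set I) ∉ Jst kappa L B (f t).1} = Set.univ := by
      ext t
      simp only [Set.mem_univ, iff_true]
      exact (hJ t).univ_notMem
    rw [← h1]; exact h
  · refine hK.down _ _ ?_ hY
    intro t ht hcon
    exact ht ((hJ t).down _ _ hXY hcon)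
  · have h1 := hK.isKI.iUnion (T := S) (fun X => {t | X.1 ∉ Jst kappa L B (f t).1}) hcard
      (fun X => hS X.2)
    refine hK.down _ _ ?_ h1
    intro t ht
    by_contra hcon
    apply ht
    refine (hJ t).sUnion S ?_ hcard
    intro X hX
    by_contra hX2
    exact hcon (Set.mem_iUnion.2 ⟨⟨X, hX⟩, hX2⟩)

theorem DS_base (hC : Core kappa L B lam) {T : Type u} (f : T → PT kappa L B lam)
    {K : Set (Set T)} (hK : IsKIdeal kappa K) : B ⊆ DS f K := by
  intro X hX
  have h1 : {t | X ∉ Jst kappa L B (f t).1} = ∅ := by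
    ext t
    simp only [Set.mem_empty_iff_false, iff_false]
    intro h
    exact h ((loc_adm hC (f t).2.1).2.1 hX)
  show {t | X ∉ Jst kappa L B (f t).1} ∈ K
  rw [h1]; exact hK.isKI.empty hC.reg.aleph0_le

theorem DS_tcf (hC : Core kappa L B lam) (hF : GoodSys F) {T : Type u} (hT : #T ≤ kappa)
    (f : T → PT kappa L B lam)
    {K : Set (Set T)} (hK : IsKIdeal kappa K) {sg : Cardinal.{u}}
    (ht : TCF (fun t => (f t).1) K sg) : TCF L (DS f K) sg := by
  classical
  have hk := hC.reg.aleph0_le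
  have hJ := fun t => (loc_adm hC (f t).2.1).1
  have hfreg : ∀ t, (f t).1.IsRegular := fun t => loc_regular (f t).2.1
  have hdir := ht.dir hK.isKI hk
  have hTL : ∀ x, #T < L x := fun x =>
    lt_of_le_of_lt (hT.trans (Cardinal.cantor kappa).le) (hC.Lbig x)
  have hD := DS_ideal hC f hK
  -- the transfer of a bound
  have key : ∀ (m : T → Ordinal.{u}), InProd (fun t => (f t).1) m →
      ∃ Gm, InProd L Gm ∧ ∀ p : I → Ordinal.{u}, InProd L p →
        LeMod K (fun t => kf F p (f t)) m → LeMod (DS f K) p Gm := by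
    intro m hm
    obtain ⟨Gm, h1, h2⟩ := exists_bound0 hC.Lreg hTL (fun t => F (f t) (m t))
      (fun t => hF.inp _ _ (hm t))
    refine ⟨Gm, h1, fun p hp hpm => ?_⟩
    refine hK.down _ _ ?_ hpm
    intro t ht1
    by_contra hcon
    apply ht1
    have hcon' : kf F p (f t) ≤ m t := not_lt.1 hcon
    have h3 := (kf_mem hC hF hp (f t)).2
    exact (h3.trans (hJ t).isKI hk (hF.mono hC (f t) hcon' (hm t))).trans_le (hJ t).isKI (h2 t)
  obtain ⟨hsreg, e, he1, he2, he3⟩ := ht
  have hGx : ∀ i : sg.ord.ToType, ∃ Gm, InProd L Gm ∧ ∀ p : I → Ordinal.{u}, InProd L p →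
        LeMod K (fun t => kf F p (f t)) (e (ToType.toOrd i).1) → LeMod (DS f K) p Gm :=
    fun i => key _ (he1 _ (ToType.toOrd i).2)
  choose Gx hGx1 hGx2 using hGx
  refine TCF.of_dir_cof hD.isKI hk hC.Lreg hsreg ?_ Gx hGx1 id Function.injective_id ?_
  · intro T1 p hT1 hp
    obtain ⟨m, hm1, hm2⟩ := hdir T1 (fun u t => kf F (p u) (f t)) hT1
      (fun u t => (kf_mem hC hF (hp u) (f t)).1)
    obtain ⟨Gm, h1, h2⟩ := key m hm1
    exact ⟨Gm, h1, fun u => h2 (p u) (hp u) (hm2 u)⟩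
  · intro q hq
    obtain ⟨a, ha, hlt⟩ := he3 (fun t => kf F q (f t)) (fun t => (kf_mem hC hF hq (f t)).1)
    refine ⟨ToType.mk ⟨a, ha⟩, hGx2 _ q hq ?_⟩
    simp only [OrderIso.symm_apply_apply]
    exact LtMod.leMod hK.isKI hlt

/-- The improper product is never directed: the family of all functions is unbounded. -/
theorem not_dir_of_proper {T : Type u} {M : T → Cardinal.{u}} (hM : ∀ t, (M t).IsRegular)
    {K : Set (Set T)} (hK : Set.univ ∉ K) : ∃ c, ¬ Dir M K c := by
  refine ⟨Order.succ #(∀ t, (M t).ord.ToType), fun hd => ?_⟩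
  obtain ⟨g, hg1, hg2⟩ := hd (∀ t, (M t).ord.ToType)
    (fun q t => (ToType.toOrd (q t)).1) (Order.lt_succ _) (fun q t => (ToType.toOrd (q t)).2)
  have h1 := hg2 (fun t => ToType.mk ⟨g t + 1, lt_add_one_ord (hM t) (hg1 t)⟩)
  apply hK
  convert h1 using 1
  ext t
  simp only [Set.mem_univ, true_iff, OrderIso.symm_apply_apply]
  show g t < g t + 1
  exact Order.lt_add_one_iff.2 le_rfl

theorem compactness (hC : Core kappa L B lam)
    (hmax : ∀ K : Set (Set I), IsKIdeal kappa K → B ⊆ K → ¬ Dir L K (Order.succ lam))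
    (hF : GoodSys F) (hch : ChainP F h G C) (hl : LimP F h G C g c)
    (hB : ∀ s, Bhat F g c s ∈ Jst kappa L B lam)
    {T : Type u} (hT : #T ≤ kappa) (f : T → PT kappa L B lam)
    {E : Set I} (hE : E ∈ Jst kappa L B lam) (hcov : ∀ t, Eᶜ ∈ Jst kappa L B (f t).1) :
    (⋃ t, Bhat F g c (f t)) ∈ Jst kappa L B lam := by
  classical
  by_contra hcon
  have hk := hC.reg.aleph0_le
  have hJ := fun t => (loc_adm hC (f t).2.1).1
  have hlam := loc_adm hC hC.lamP
  have hfreg : ∀ t, (f t).1.IsRegular := fun t => loc_regular (f t).2.1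
  have hKT := KT_isKI (F := F) (g := g) (c := c) hC f
  have huniv : (Set.univ : Set T) ∉ KT F g c f := by
    intro h1
    apply hcon
    have h2 : (⋃ t ∈ (Set.univ : Set T), Bhat F g c (f t)) ∈ Jst kappa L B lam := h1
    simpa using h2
  obtain ⟨c0, hc0⟩ := not_dir_of_proper hfreg huniv
  have hsmall : ∀ t, #(Set T) < (f t).1 := by
    intro t
    refine lt_of_le_of_lt ?_ (loc_big hC (f t).2.1)
    rw [Cardinal.mk_set]
    exact Cardinal.power_le_power_left two_ne_zero hT
  obtain ⟨sg, b, hsreg, hsdir, _, hb, hKid, htcf⟩ := exists_tcf_trace hk hKT hfreg hsmall hc0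
  have hsub : KT F g c f ⊆ Tr (KT F g c f) b := by
    intro X hX
    exact hKT.down _ _ Set.inter_subset_left hX
  set K := Tr (KT F g c f) b with hKdef
  have hDt := DS_tcf hC hF hT f hKid htcf
  have hDi := DS_ideal hC f hKid
  have hDb := DS_base hC f hKid
  have hadm : Adm kappa L B sg (DS f K) := ⟨hDi, hDb, hDt⟩
  -- the cardinal is below lam
  have hlt : sg < lam := by
    by_contra hge
    rw [not_lt] at hge
    rcases hge.lt_or_eq with h1 | h1
    · exact hmax _ hDi hDb ((hDt.dir hDi.isKI hk).anti (Order.succ_le_of_lt h1))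
    · subst h1
      have h2 : E ∈ DS f K := loc_sub hadm hE
      have h3 : Eᶜ ∈ DS f K := by
        have h4 : {t | Eᶜ ∉ Jst kappa L B (f t).1} = ∅ := by
          ext t
          simp only [Set.mem_empty_iff_false, iff_false]
          intro h; exact h (hcov t)
        show {t | Eᶜ ∉ Jst kappa L B (f t).1} ∈ K
        rw [h4]; exact hKid.isKI.empty hk
      have h5 := hDi.isKI.union hk h2 h3
      rw [Set.union_compl_self] at h5
      exact hDi.univ_notMem h5
  set s : PT kappa L B lam := ⟨sg, ⟨_, hadm⟩, hlt⟩ with hs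
  have hsubD : Jst kappa L B s.1 ⊆ DS f K := loc_sub hadm
  -- one inequality
  have hle : {t | c (f t) < kf F (F s (c s)) (f t)} ∈ K := by
    have h1 : {x | g x < F s (c s) x} ∈ DS f K := hsubD (hl.F_le_g hC hF hch s)
    refine hKid.down _ _ ?_ h1
    intro t ht1 ht2
    have h2 : LeMod (Jst kappa L B (f t).1) (F s (c s)) g := ht2
    have h3 := h2.trans (hJ t).isKI hk (hl.g_le_F hC hF hch (f t))
    exact absurd (kf_le (hl.clt (f t)) h3) (not_le.2 ht1)
  -- the other inequality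
  have hge : {t | kf F (F s (c s)) (f t) < c (f t)} ∈ K := by
    refine stab hC hT hKid.down (fun a => {t | kf F (F s (c s)) (f t) < C a (f t)}) ?_ ?_ _ ?_
    · intro a b hb ha t ht1
      exact lt_trans (show kf F (F s (c s)) (f t) < C b (f t) from ht1) (hch.Cmono a b hb ha (f t))
    · intro a ha
      have ha1 := succ_ord_add hk ha
      have ha2 := succ_ord_add hk ha1
      have h1 : {x | F s (c s) x < G (a + 1) x} ∈ DS f K := by
        apply hsubD
        exact LimP.G_le_F hC hF hch ha1 s (hl.Cle _ ha2 s).le (hl.clt s)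
      refine hKid.down _ _ ?_ h1
      intro t ht1 ht2
      have h2 : LeMod (Jst kappa L B (f t).1) (G (a + 1)) (F s (c s)) := ht2
      have h3 : LeMod (Jst kappa L B (f t).1) (F (f t) (C a (f t) + 1)) (F s (c s)) :=
        LeMod.le_trans (hJ t).isKI
          (hch.GF (a + 1) a (Order.lt_add_one_iff.2 le_rfl) ha1 (f t)) h2
      have h4 := kf_mem hC hF (hF.inp s (c s) (hl.clt s)) (f t)
      have h5 := h3.trans (hJ t).isKI hk h4.2
      have h6 := hF.le_of_leMod hC (f t)
        (lt_add_one_ord (hfreg t) (hch.Clt a ha (f t))) h5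
      have h7 : kf F (F s (c s)) (f t) < C a (f t) := ht1
      exact absurd h7 (not_lt.2 ((Order.lt_add_one_iff.2 le_rfl).le.trans h6))
    · intro t ht1
      exact hl.csup (f t) _ ht1
  have heq : {t | kf F (F s (c s)) (f t) = c (f t)} ∈ K := by
    apply hsub
    show (⋃ t ∈ {t | kf F (F s (c s)) (f t) = c (f t)}, Bhat F g c (f t)) ∈ Jst kappa L B lam
    refine hlam.1.down _ _ ?_ (hB s)
    intro x hx
    simp only [Set.mem_iUnion] at hx
    obtain ⟨t, ht1, hx⟩ := hx
    exact Bhat_sub ht1 hx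
  apply hKid.univ_notMem
  have h8 := hKid.isKI.union hk (hKid.isKI.union hk hle hge) heq
  convert h8 using 1
  ext t
  simp only [Set.mem_univ, true_iff]
  rcases lt_trichotomy (kf F (F s (c s)) (f t)) (c (f t)) with h | h | h
  · exact Or.inl (Or.inr h)
  · exact Or.inr h
  · exact Or.inl (Or.inl h)

end

theorem localization (hC : Core kappa L B lam)
    (hmax : ∀ K : Set (Set I), IsKIdeal kappa K → B ⊆ K → ¬ Dir L K (Order.succ lam))
    (A : Set Cardinal.{u}) (hA : ∀ th, th ∈ A → InP kappa L B th ∧ th < lam)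
    (hcov : ∀ (T : Type u) (f : T → Cardinal.{u}), #T ≤ kappa → (∀ t, f t ∈ A) →
        Covered kappa L B lam (Set.range f)) : Covered kappa L B lam A := by
  classical
  obtain ⟨F, hF⟩ := exists_goodSys hC
  obtain ⟨H, hH⟩ := exists_hat hC hF
  obtain ⟨h, hh1, hh2⟩ := exists_top hC (fun s a ha => (hH s a ha).1)
  obtain ⟨G, C, hch⟩ := exists_chain hC hF hh1
  obtain ⟨g, c, hl⟩ := exists_lim hC hch
  have hB := Bhat_mem hC hH hh2 hl
  let E : Set I := {x | ∃ s : PT kappa L B lam, s.1 ∈ A ∧ x ∈ Bhat F g c s}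
  have hch2 : ∀ x : E, ∃ s : PT kappa L B lam, s.1 ∈ A ∧ x.1 ∈ Bhat F g c s := fun x => x.2
  choose f hf1 hf2 using hch2
  have hT : #E ≤ kappa := (Cardinal.mk_set_le E).trans hC.card
  obtain ⟨E0, hE0, hE1⟩ := hcov E (fun x => (f x).1) hT hf1
  have hmem := compactness hC hmax hF hch hl hB hT f hE0 (fun t => hE1 _ ⟨t, rfl⟩)
  have hEmem : E ∈ Jst kappa L B lam := by
    refine (loc_adm hC hC.lamP).1.down _ _ ?_ hmem
    intro x hx
    exact Set.mem_iUnion.2 ⟨⟨x, hx⟩, hf2 ⟨x, hx⟩⟩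
  refine ⟨E, hEmem, fun th hth => ?_⟩
  have h1 := hA th hth
  have h2 := Bhat_compl hC hF hch hl ⟨th, h1.1, h1.2⟩
  refine (loc_adm hC h1.1).1.down _ _ ?_ h2
  intro x hx hcon
  exact hx ⟨⟨th, h1.1, h1.2⟩, hth, hcon⟩

end Pool.Agent.Helper6.Pcf
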