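import Pool.Agent.Helper6.Pcf.Defs

/-!
Families of at most kappa many sets have pseudo-intersections.
-/

universe u

open Cardinal Ordinal Set

namespace Pool.Agent.Helper6.Pcf

theorem pIntSelf_Iic {kappa : Cardinal.{u}} (hk : kappa.IsRegular) (i : kappa.ord.ToType) :
    #(Iic i) < kappa := by
  have hIio : #(Iio i) < kappa := mk_Iio_toType_ord_lt i
  have h1 : Iic i = insert i (Iio i) := by
    rw [Set.Iio_insert]
  rw [h1]
  exact lt_of_le_of_lt mk_insert_le (add_one_lt_of_lt hk.aleph0_le hIio)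

theorem pIntSelf_exists {kappa : Cardinal.{u}} (hk : kappa.IsRegular) {I : Type u}
    (A : Set (Set I))
    (hA : ∀ S : Set (Set I), S ⊆ A → #S < kappa → kappa ≤ #(⋂₀ S : Set I))
    (a : kappa.ord.ToType → Set I) (ha : ∀ i, a i ∈ A) (i : kappa.ord.ToType)
    (f : (j : kappa.ord.ToType) → j < i → I) :
    ∃ y : I, (∀ j, j ≤ i → y ∈ a j) ∧ ∀ j (hj : j < i), y ≠ f j hj := by
  have hIio : #(Iio i) < kappa := mk_Iio_toType_ord_lt i
  have hS : #(a '' Iic i : Set (Set I)) < kappa := lt_of_le_of_lt mk_image_le (pIntSelf_Iic hk i)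
  have h2 := hA (a '' Iic i) (by rintro _ ⟨j, _, rfl⟩; exact ha j) hS
  by_contra hcon
  push Not at hcon
  have h3 : (⋂₀ (a '' Iic i) : Set I) ⊆ range (fun j : Iio i => f j.1 j.2) := by
    intro y hy
    obtain ⟨j, hj, he⟩ := hcon y (fun j hj => hy (a j) ⟨j, hj, rfl⟩)
    exact ⟨⟨j, hj⟩, he.symm⟩
  have h4 : #(⋂₀ (a '' Iic i) : Set I) < kappa :=
    lt_of_le_of_lt (mk_le_mk_of_subset h3) (lt_of_le_of_lt mk_range_le hIio)
  exact absurd h2 (not_le.mpr h4)

theorem PInt_self {kappa : Cardinal.{u}} (hk : kappa.IsRegular) : PInt kappa kappa := by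
  intro I hI A hAk hA
  rcases A.eq_empty_or_nonempty with hAe | hAne
  · refine ⟨univ, by rw [mk_univ, hI], ?_⟩
    intro a ha
    rw [hAe] at ha
    exact ha.elim
  have : Nonempty A := hAne.to_subtype
  have hcard : #A ≤ #(kappa.ord.ToType) := by rw [mk_ord_toType]; exact hAk
  obtain ⟨e⟩ := hcard
  obtain ⟨g, hg⟩ : ∃ g : kappa.ord.ToType → A, Function.Surjective g :=
    ⟨Function.invFun e, Function.invFun_surjective e.injective⟩
  let a : kappa.ord.ToType → Set I := fun i => (g i : Set I)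
  have ha : ∀ i, a i ∈ A := fun i => (g i).2
  have hstep := pIntSelf_exists hk A hA a ha
  let x : kappa.ord.ToType → I := WellFounded.fix (wellFounded_lt (α := kappa.ord.ToType))
    (fun i f => Classical.choose (hstep i f))
  have hx : ∀ i, (∀ j, j ≤ i → x i ∈ a j) ∧ ∀ j, j < i → x i ≠ x j := by
    intro i
    have he : x i = Classical.choose (hstep i (fun j _ => x j)) :=
      WellFounded.fix_eq _ _ i
    have hs := Classical.choose_spec (hstep i (fun j _ => x j))
    rw [← he] at hs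
    exact hs
  have hinj : Function.Injective x := by
    intro i j hij
    rcases lt_trichotomy i j with h | h | h
    · exact absurd hij.symm ((hx j).2 i h)
    · exact h
    · exact absurd hij ((hx i).2 j h)
  refine ⟨range x, by rw [mk_range_eq _ hinj, mk_ord_toType], ?_⟩
  intro b hb
  obtain ⟨j, hj⟩ := hg ⟨b, hb⟩
  have hj' : a j = b := congrArg Subtype.val hj
  have hsub : (range x \ b : Set I) ⊆ x '' Iio j := by
    rintro _ ⟨⟨i, rfl⟩, hi⟩
    refine ⟨i, ?_, rfl⟩
    by_contra hcon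
    have hji : j ≤ i := not_lt.mp hcon
    apply hi
    rw [← hj']
    exact (hx i).1 j hji
  exact lt_of_le_of_lt (mk_le_mk_of_subset hsub)
    (lt_of_le_of_lt mk_image_le (mk_Iio_toType_ord_lt j))

end Pool.Agent.Helper6.Pcf
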