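import Pool.Agent.Helper6.Pcf.Basic

universe u w

open Cardinal Ordinal Set

namespace Pool.Agent.Helper6.Pcf

/-- Transfinite recursion with choices. -/
theorem exists_rec {X : Type w} [Nonempty X]
    (Q : Ordinal.{u} → (Ordinal.{u} → X) → X → Prop)
    (hloc : ∀ a F G x, (∀ b, b < a → F b = G b) → Q a F x → Q a G x)
    (hex : ∀ a F, (∀ b, b < a → Q b F (F b)) → ∃ x, Q a F x) :
    ∃ F : Ordinal.{u} → X, ∀ a, Q a F (F a) := by
  classical
  let F : Ordinal.{u} → X := WellFounded.fix (r := (· < ·)) Ordinal.lt_wf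
    (fun a ih => Classical.epsilon
      (fun x => Q a (fun b => if h : b < a then ih b h else Classical.arbitrary X) x))
  have hF : ∀ a, F a = Classical.epsilon
      (fun x => Q a (fun b => if b < a then F b else Classical.arbitrary X) x) := by
    intro a
    have h1 := WellFounded.fix_eq (r := (· < ·)) Ordinal.lt_wf
      (fun (a : Ordinal.{u}) (ih : ∀ b, b < a → X) => Classical.epsilon
        (fun x => Q a (fun b => if h : b < a then ih b h else Classical.arbitrary X) x)) a
    have h2 : F a = Classical.epsilon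
      (fun x => Q a (fun b => if h : b < a then F b else Classical.arbitrary X) x) := h1
    rw [h2]
    simp only [dite_eq_ite]
  refine ⟨F, fun a => ?_⟩
  induction a using WellFoundedLT.induction with
  | ind a ih =>
    set G : Ordinal.{u} → X := fun b => if b < a then F b else Classical.arbitrary X with hG
    have hGF : ∀ b, b < a → G b = F b := by
      intro b hb
      simp only [hG, hb, if_true]
    have hQG : ∀ b, b < a → Q b G (G b) := by
      intro b hb
      rw [hGF b hb]
      refine hloc b F G _ ?_ (ih b hb)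
      intro c hc
      exact (hGF c (hc.trans hb)).symm
    have h3 := Classical.epsilon_spec (hex a G hQG)
    rw [← hF a] at h3
    exact hloc a G F _ hGF h3

variable {I : Type u} {kappa : Cardinal.{u}} {L : I → Cardinal.{u}} {K : Set (Set I)}

/-- `g` is a least upper bound modulo `K` of the `F a`, `a < d`. -/
def IsLubMod (L : I → Cardinal.{u}) (K : Set (Set I)) (F : Ordinal.{u} → I → Ordinal.{u})
    (d : Ordinal.{u}) (g : I → Ordinal.{u}) : Prop :=
  InProd L g ∧ (∀ a, a < d → LeMod K (F a) g) ∧
    ∀ e, InProd L e → (∀ a, a < d → LeMod K (F a) e) → LeMod K g e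

theorem IsLubMod.congr {F G : Ordinal.{u} → I → Ordinal.{u}} {d : Ordinal.{u}}
    (h : ∀ a, a < d → F a = G a) {g : I → Ordinal.{u}} (hg : IsLubMod L K F d g) :
    IsLubMod L K G d g := by
  refine ⟨hg.1, fun a ha => ?_, fun e he1 he2 => hg.2.2 e he1 fun a ha => ?_⟩
  · rw [← h a ha]; exact hg.2.1 a ha
  · rw [h a ha]; exact he2 a ha

theorem exists_seq (hK : IsKI kappa K) (hk : ℵ₀ ≤ kappa) (hreg : ∀ x, (L x).IsRegular)
    {th : Cardinal.{u}} (hdir : Dir L K th)
    (h : Ordinal.{u} → I → Ordinal.{u}) (hh : ∀ a, a < th.ord → InProd L (h a)) :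
    ∃ F : Ordinal.{u} → I → Ordinal.{u},
      (∀ a, a < th.ord → InProd L (F a)) ∧
      (∀ a b, a < b → b < th.ord → LtMod K (F a) (F b)) ∧
      (∀ a, a + 1 < th.ord → ∀ x, h a x ≤ F (a + 1) x) ∧
      (∀ d, d < th.ord → Order.IsSuccLimit d → (∃ g, IsLubMod L K F d g) →
        IsLubMod L K F d (F d)) := by
  obtain ⟨F, hF⟩ := exists_rec (X := I → Ordinal.{u})
    (fun a F g => a < th.ord → InProd L g ∧ (∀ b, b < a → LtMod K (F b) g) ∧
      (∀ b, b + 1 = a → ∀ x, h b x ≤ g x) ∧
      (Order.IsSuccLimit a → (∃ g', IsLubMod L K F a g') → IsLubMod L K F a g)) (by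
      intro a F G x hFG hQ ha
      obtain ⟨h1, h2, h3, h4⟩ := hQ ha
      refine ⟨h1, fun b hb => ?_, h3, fun hl hg => ?_⟩
      · rw [← hFG b hb]; exact h2 b hb
      · refine (h4 hl ?_).congr hFG
        obtain ⟨g', hg'⟩ := hg
        exact ⟨g', hg'.congr (fun b hb => (hFG b hb).symm)⟩) (by
      intro a F ih
      by_cases ha : a < th.ord
      swap
      · exact ⟨fun _ => 0, fun h => absurd h ha⟩
      have strict : Order.IsSuccLimit a → ∀ g : I → Ordinal.{u},
          (∀ b, b < a → LeMod K (F b) g) → ∀ b, b < a → LtMod K (F b) g := by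
        intro hl g hg b hb
        have hb1 : b + 1 < a := hl.add_one_lt hb
        have := (ih (b + 1) hb1 (hb1.trans ha)).2.1 b (Order.lt_add_one_iff.2 le_rfl)
        exact this.trans_leMod hK hk (hg _ hb1)
      rcases Ordinal.zero_or_succ_or_isSuccLimit a with h0 | ⟨b, hb⟩ | hl
      · subst h0
        refine ⟨fun _ => 0, fun _ => ⟨inProd_zero hreg, ?_, ?_, ?_⟩⟩
        · intro b hb; exact absurd hb (not_lt.2 zero_le)
        · intro b hb; exact absurd hb (by simp)
        · intro hl; exact absurd hl (by simp)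
      · have hb' : b + 1 = a := by rw [← hb]; simp
        subst hb'
        have hbt : b < th.ord := lt_trans (Order.lt_add_one_iff.2 le_rfl) ha
        have hbl := ih b (Order.lt_add_one_iff.2 le_rfl) hbt
        refine ⟨fun x => max (F b x + 1) (h b x), fun _ => ⟨?_, ?_, ?_, ?_⟩⟩
        · intro x
          exact max_lt (inProd_add_one hreg hbl.1 x) (hh b hbt x)
        · intro c hc
          rcases (Order.lt_add_one_iff.1 hc).lt_or_eq with hcb | hcb
          · refine (hbl.2.1 c hcb).trans_leMod hK hk (LeMod.of_le hK hk fun x => ?_)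
            exact le_trans (Order.lt_add_one_iff.2 le_rfl).le (le_max_left _ _)
          · subst hcb
            refine LeMod.add_one.2 (LeMod.of_le hK hk fun x => le_max_left _ _)
        · intro c hc x
          have : c = b := by simpa using hc
          subst this
          exact le_max_right _ _
        · intro hl; exact absurd hl (by simp)
      · by_cases hlub : ∃ g', IsLubMod L K F a g'
        · obtain ⟨g, hg⟩ := hlub
          refine ⟨g, fun _ => ⟨hg.1, strict hl g hg.2.1, ?_, fun _ _ => hg⟩⟩
          intro b hb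
          exact absurd hl (by rw [← hb]; simp)
        · obtain ⟨g, hg1, hg2⟩ := hdir a.ToType (fun i => F (ToType.toOrd i).1) (by
            rw [Cardinal.mk_toType]
            exact Cardinal.lt_ord.1 ha) (by
            intro i
            have hi := (ToType.toOrd i).2
            exact (ih _ hi (lt_trans hi ha)).1)
          refine ⟨g, fun _ => ⟨hg1, strict hl g ?_, ?_, fun _ h => absurd h hlub⟩⟩
          · intro b hb
            have := hg2 (ToType.mk ⟨b, hb⟩)
            unfold LeMod
            simpa using this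
          · intro b hb
            exact absurd hl (by rw [← hb]; simp))
  refine ⟨F, fun a ha => (hF a ha).1, fun a b hab hb => (hF b hb).2.1 a hab,
    fun a ha => (hF (a + 1) ha).2.2.1 a rfl, fun d hd hl => (hF d hd).2.2.2 hl⟩

/-- Directedness and a cofinal family give a true cofinality, with a sequence continuous at
the points where a least upper bound exists. -/
theorem exists_seq_of_dir_cof (hK : IsKI kappa K) (hk : ℵ₀ ≤ kappa)
    (hreg : ∀ x, (L x).IsRegular) {th : Cardinal.{u}} (hth : th.IsRegular)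
    (hdir : Dir L K th) {T : Type w} (p : T → I → Ordinal.{u}) (hp : ∀ t, InProd L (p t))
    (e : T → th.ord.ToType) (he : Function.Injective e)
    (hcof : ∀ g, InProd L g → ∃ t, LeMod K g (p t)) :
    ∃ F : Ordinal.{u} → I → Ordinal.{u},
      (∀ a, a < th.ord → InProd L (F a)) ∧
      (∀ a b, a < b → b < th.ord → LtMod K (F a) (F b)) ∧
      (∀ g, InProd L g → ∃ a, a < th.ord ∧ LtMod K g (F a)) ∧
      (∀ d, d < th.ord → Order.IsSuccLimit d → (∃ g, IsLubMod L K F d g) →
        IsLubMod L K F d (F d)) := by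
  classical
  let h : Ordinal.{u} → I → Ordinal.{u} := fun a =>
    if ht : ∃ t, (ToType.toOrd (e t)).1 = a then p ht.choose else fun _ => 0
  have hh : ∀ a, a < th.ord → InProd L (h a) := by
    intro a _
    by_cases ht : ∃ t, (ToType.toOrd (e t)).1 = a
    · simp only [h, ht, dite_true]; exact hp _
    · simp only [h, ht, dite_false]; exact inProd_zero hreg
  have hval : ∀ t, h (ToType.toOrd (e t)).1 = p t := by
    intro t
    have ht : ∃ t', (ToType.toOrd (e t')).1 = (ToType.toOrd (e t)).1 := ⟨t, rfl⟩
    have h2 : ht.choose = t := by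
      apply he
      have h3 : (ToType.toOrd (e ht.choose)).1 = (ToType.toOrd (e t)).1 := ht.choose_spec
      exact (ToType.mk.symm).injective (Subtype.ext h3)
    simp only [h, ht, dite_true, h2]
  obtain ⟨F, h1, h2, h3, h4⟩ := exists_seq hK hk hreg hdir h hh
  refine ⟨F, h1, h2, fun g hg => ?_, h4⟩
  obtain ⟨t, ht⟩ := hcof _ (inProd_add_one hreg hg)
  have hlt : (ToType.toOrd (e t)).1 + 1 < th.ord := lt_add_one_ord hth (ToType.toOrd (e t)).2
  refine ⟨_, hlt, LeMod.add_one.2 (ht.trans_le hK fun x => ?_)⟩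
  have := h3 _ hlt x
  rwa [hval] at this

theorem TCF.of_dir_cof (hK : IsKI kappa K) (hk : ℵ₀ ≤ kappa)
    (hreg : ∀ x, (L x).IsRegular) {th : Cardinal.{u}} (hth : th.IsRegular)
    (hdir : Dir L K th) {T : Type w} (p : T → I → Ordinal.{u}) (hp : ∀ t, InProd L (p t))
    (e : T → th.ord.ToType) (he : Function.Injective e)
    (hcof : ∀ g, InProd L g → ∃ t, LeMod K g (p t)) : TCF L K th := by
  obtain ⟨F, h1, h2, h3, _⟩ := exists_seq_of_dir_cof hK hk hreg hth hdir p hp e he hcof
  exact ⟨hth, F, h1, h2, h3⟩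

/-- The sequence witnessing a true cofinality can be chosen continuous. -/
theorem TCF.exists_cont (hK : IsKI kappa K) (hk : ℵ₀ ≤ kappa)
    (hreg : ∀ x, (L x).IsRegular) {th : Cardinal.{u}} (ht : TCF L K th) :
    ∃ F : Ordinal.{u} → I → Ordinal.{u},
      (∀ a, a < th.ord → InProd L (F a)) ∧
      (∀ a b, a < b → b < th.ord → LtMod K (F a) (F b)) ∧
      (∀ g, InProd L g → ∃ a, a < th.ord ∧ LtMod K g (F a)) ∧
      (∀ d, d < th.ord → Order.IsSuccLimit d → (∃ g, IsLubMod L K F d g) →
        IsLubMod L K F d (F d)) := by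
  have hdir := ht.dir hK hk
  obtain ⟨hth, F, h1, h2, h3⟩ := ht
  refine exists_seq_of_dir_cof hK hk hreg hth hdir
    (fun i : th.ord.ToType => F (ToType.toOrd i).1) (fun i => h1 _ (ToType.toOrd i).2)
    id Function.injective_id ?_
  intro g hg
  obtain ⟨a, ha, hlt⟩ := h3 g hg
  refine ⟨ToType.mk ⟨a, ha⟩, ?_⟩
  have := LtMod.leMod hK hlt
  simpa using this

end Pool.Agent.Helper6.Pcf
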